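import Mathlib

set_option linter.unusedSectionVars false

open Matrix Finset

namespace EIS

section Frob

variable {l m n : Type*} [Fintype l] [Fintype m] [Fintype n]

/-- Squared Frobenius norm of a real matrix. -/
def nsq (A : Matrix m n ℝ) : ℝ := ∑ a, ∑ b, A a b ^ 2

lemma nsq_nonneg (A : Matrix m n ℝ) : 0 ≤ nsq A :=
  Finset.sum_nonneg fun _ _ => Finset.sum_nonneg fun _ _ => sq_nonneg _

lemma nsq_transpose (A : Matrix m n ℝ) : nsq Aᵀ = nsq A := by
  unfold nsq
  rw [Finset.sum_comm]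
  rfl

lemma trace_transpose_mul (A B : Matrix m n ℝ) :
    trace (Aᵀ * B) = ∑ a, ∑ b, A a b * B a b := by
  simp only [Matrix.trace, Matrix.diag_apply, Matrix.mul_apply, Matrix.transpose_apply]
  rw [Finset.sum_comm]

lemma nsq_eq_trace (A : Matrix m n ℝ) : nsq A = trace (Aᵀ * A) := by
  rw [trace_transpose_mul]
  unfold nsq
  simp only [sq]

lemma nsq_eq_trace' (A : Matrix m n ℝ) : nsq A = trace (A * Aᵀ) := by
  rw [nsq_eq_trace, Matrix.trace_mul_comm]

lemma entry_sq_le_nsq (A : Matrix m n ℝ) (a : m) (b : n) : A a b ^ 2 ≤ nsq A := by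
  unfold nsq
  calc A a b ^ 2 ≤ ∑ b, A a b ^ 2 :=
        Finset.single_le_sum (f := fun b => A a b ^ 2) (fun _ _ => sq_nonneg _) (Finset.mem_univ b)
    _ ≤ ∑ a, ∑ b, A a b ^ 2 :=
        Finset.single_le_sum (f := fun a => ∑ b, A a b ^ 2)
          (fun _ _ => Finset.sum_nonneg fun _ _ => sq_nonneg _) (Finset.mem_univ a)

lemma trace_transpose_mul_sq_le (A B : Matrix m n ℝ) :
    (trace (Aᵀ * B)) ^ 2 ≤ nsq A * nsq B := by
  rw [trace_transpose_mul]
  unfold nsq
  rw [← Finset.sum_product', ← Finset.sum_product', ← Finset.sum_product']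
  exact Finset.sum_mul_sq_le_sq_mul_sq _ _ _

lemma trace_sq_le [DecidableEq n] (A : Matrix n n ℝ) :
    (trace A) ^ 2 ≤ (Fintype.card n : ℝ) * nsq A := by
  have h1 : (trace A) ^ 2 ≤ (Fintype.card n : ℝ) * ∑ a, A a a ^ 2 := by
    have := sq_sum_le_card_mul_sum_sq (s := (Finset.univ : Finset n)) (f := fun a => A a a)
    simpa [Matrix.trace, Finset.card_univ] using this
  refine h1.trans ?_
  apply mul_le_mul_of_nonneg_left _ (by positivity)
  unfold nsq
  apply Finset.sum_le_sum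
  intro a _
  exact Finset.single_le_sum (f := fun b => A a b ^ 2) (fun _ _ => sq_nonneg _) (Finset.mem_univ a)

end Frob

section PartA

variable {n ι : Type*} [Fintype n] [Fintype ι] [DecidableEq n] [DecidableEq ι]

/-- A family of rank-`k` projection matrices that are pairwise isoclinic with parameter `α`, and
whose sum is diagonal. -/
structure Hyp (k : ℕ) (α : ℝ) (P : ι → Matrix n n ℝ) (lam : n → ℝ) : Prop where
  symm : ∀ i, (P i)ᵀ = P i
  idem : ∀ i, P i * P i = P i
  tr : ∀ i, trace (P i) = (k : ℝ)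
  iso : ∀ i j, i ≠ j → P i * P j * P i = (α ^ 2) • P i
  diag : ∑ i, P i = diagonal lam

variable {k : ℕ} {α : ℝ} {P : ι → Matrix n n ℝ} {lam : n → ℝ}

namespace Hyp

lemma entry_symm (H : Hyp k α P lam) (i : ι) (a b : n) : P i a b = P i b a := by
  have := congrFun (congrFun (H.symm i) b) a
  simpa [Matrix.transpose_apply] using this

lemma trace_mul_ne (H : Hyp k α P lam) {i j : ι} (hij : i ≠ j) :
    trace (P i * P j) = k * α ^ 2 := by
  have h := congrArg trace (H.iso i j hij)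
  rw [Matrix.trace_smul, H.tr i, Matrix.mul_assoc, Matrix.trace_mul_comm, Matrix.mul_assoc,
    H.idem i, Matrix.trace_mul_comm] at h
  rw [h, smul_eq_mul]; ring

lemma trace_mul_self (H : Hyp k α P lam) (i : ι) : trace (P i * P i) = k := by
  rw [H.idem i, H.tr i]

lemma nsq_P (H : Hyp k α P lam) (i : ι) : nsq (P i) = k := by
  rw [nsq_eq_trace, H.symm i, H.trace_mul_self i]

/-- Frobenius norm of a combination `∑ a i • P i`. -/
lemma nsq_sum (H : Hyp k α P lam) (a : ι → ℝ) :
    nsq (∑ i, a i • P i) = k * (1 - α ^ 2) * ∑ i, a i ^ 2 + k * α ^ 2 * (∑ i, a i) ^ 2 := by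
  have h1 : nsq (∑ i, a i • P i) = ∑ i, ∑ j, a i * a j * trace (P i * P j) := by
    rw [nsq_eq_trace, Matrix.transpose_sum, Finset.sum_mul, Matrix.trace_sum]
    apply Finset.sum_congr rfl
    intro i _
    rw [Finset.mul_sum, Matrix.trace_sum]
    apply Finset.sum_congr rfl
    intro j _
    rw [Matrix.transpose_smul, H.symm i, Matrix.smul_mul, Matrix.mul_smul, Matrix.trace_smul,
      Matrix.trace_smul, smul_eq_mul, smul_eq_mul]
    ring
  rw [h1]
  have h2 : ∀ i j, a i * a j * trace (P i * P j)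
      = k * α ^ 2 * (a i * a j) + (if i = j then k * (1 - α ^ 2) * a i ^ 2 else 0) := by
    intro i j
    by_cases hij : i = j
    · subst hij
      rw [H.trace_mul_self, if_pos rfl]; ring
    · rw [H.trace_mul_ne hij, if_neg hij]; ring
  simp_rw [h2, Finset.sum_add_distrib, Finset.sum_ite_eq, Finset.mem_univ, if_true]
  rw [sq (∑ i, a i), Finset.sum_mul_sum, add_comm]
  simp_rw [Finset.mul_sum]

lemma sum_entry (H : Hyp k α P lam) (a b : n) :
    ∑ i, P i a b = if a = b then lam a else 0 := by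
  have := congrFun (congrFun H.diag a) b
  rw [Matrix.sum_apply] at this
  rw [this, Matrix.diagonal_apply]

lemma lam_eq (H : Hyp k α P lam) (a : n) : ∑ i, P i a a = lam a := by
  rw [H.sum_entry]; simp

lemma P_diag_eq (H : Hyp k α P lam) (i : ι) (a : n) : P i a a = ∑ b, P i a b ^ 2 := by
  have := congrFun (congrFun (H.idem i) a) a
  rw [Matrix.mul_apply] at this
  rw [← this]
  apply Finset.sum_congr rfl
  intro b _
  rw [H.entry_symm i b a]; ring

lemma P_diag_nonneg (H : Hyp k α P lam) (i : ι) (a : n) : 0 ≤ P i a a := by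
  rw [H.P_diag_eq]; positivity

lemma lam_nonneg (H : Hyp k α P lam) (a : n) : 0 ≤ lam a := by
  rw [← H.lam_eq]
  exact Finset.sum_nonneg fun i _ => H.P_diag_nonneg i a

lemma sum_lam (H : Hyp k α P lam) : ∑ a, lam a = k * Fintype.card ι := by
  have h1 : trace (∑ i, P i) = ∑ a, lam a := by
    rw [H.diag, Matrix.trace_diagonal]
  rw [← h1, Matrix.trace_sum]
  simp [H.tr]
  ring

/-- `c = 1 + α² (N - 1)`. -/
lemma PSP (H : Hyp k α P lam) (i : ι) :
    P i * diagonal lam * P i = (1 + α ^ 2 * (Fintype.card ι - 1)) • P i := by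
  rw [← H.diag, Finset.mul_sum, Finset.sum_mul]
  have h : ∀ j, P i * P j * P i = (α ^ 2) • P i + (if i = j then (1 - α ^ 2) • P i else 0) := by
    intro j
    by_cases hij : i = j
    · subst hij
      rw [if_pos rfl, H.idem, H.idem, ← add_smul]
      simp
    · rw [if_neg hij, H.iso i j hij, add_zero]
  simp_rw [h, Finset.sum_add_distrib, Finset.sum_ite_eq, Finset.mem_univ, if_true]
  rw [Finset.sum_const, Finset.card_univ, ← Nat.cast_smul_eq_nsmul ℝ, smul_smul, ← add_smul]
  congr 1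
  ring

lemma sum_lam_sq (H : Hyp k α P lam) :
    ∑ a, lam a ^ 2 = k * Fintype.card ι * (1 + α ^ 2 * (Fintype.card ι - 1)) := by
  have h1 := H.nsq_sum (fun _ => 1)
  simp only [one_smul] at h1
  rw [H.diag] at h1
  have h2 : nsq (diagonal lam) = ∑ a, lam a ^ 2 := by
    unfold nsq
    apply Finset.sum_congr rfl
    intro a _
    rw [Finset.sum_eq_single a]
    · simp
    · intro b _ hb
      rw [Matrix.diagonal_apply_ne _ (Ne.symm hb)]; ring
    · intro h; exact absurd (Finset.mem_univ a) h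
  rw [← h2, h1]
  simp
  ring

/-- The basic variance bound (matrix projection). -/
lemma variance (H : Hyp k α P lam) (hα : α ^ 2 ≤ 1) (hN : 0 < (Fintype.card ι : ℝ)) (a b : n) :
    ∑ i, (P i a b - (if a = b then lam a / (Fintype.card ι : ℝ) else 0)) ^ 2
      ≤ k * (1 - α ^ 2) := by
  set N : ℝ := (Fintype.card ι : ℝ) with hNdef
  set t : ℝ := if a = b then lam a / N else 0 with ht
  set y : ι → ℝ := fun i => P i a b - t with hy
  have hsum : ∑ i, y i = 0 := by
    simp only [hy, Finset.sum_sub_distrib, Finset.sum_const, Finset.card_univ, nsmul_eq_mul]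
    rw [H.sum_entry, ht]
    split_ifs with h
    · rw [← hNdef]; field_simp; ring
    · simp
  have h1 : (∑ i, y i • P i) a b = ∑ i, y i ^ 2 := by
    rw [Matrix.sum_apply]
    have : ∀ i, (y i • P i) a b = y i ^ 2 + t * y i := by
      intro i
      rw [Matrix.smul_apply, smul_eq_mul]
      simp only [hy]; ring
    simp_rw [this, Finset.sum_add_distrib, ← Finset.mul_sum, hsum]
    ring
  have h2 := entry_sq_le_nsq (∑ i, y i • P i) a b
  rw [h1, H.nsq_sum, hsum] at h2
  have h3 : 0 ≤ ∑ i, y i ^ 2 := Finset.sum_nonneg fun _ _ => sq_nonneg _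
  change ∑ i, y i ^ 2 ≤ _
  rcases h3.eq_or_lt with h0 | h0
  · rw [← h0]
    have : 0 ≤ 1 - α ^ 2 := by linarith
    positivity
  · have h5 : (∑ i, y i ^ 2) * (∑ i, y i ^ 2) ≤ (k * (1 - α ^ 2)) * (∑ i, y i ^ 2) := by
      nlinarith
    exact le_of_mul_le_mul_right h5 h0

/-- Sum of squares of the `(a,b)` entries. -/
lemma sum_sq_entry (H : Hyp k α P lam) (hα : α ^ 2 ≤ 1) (hN : 0 < (Fintype.card ι : ℝ))
    (a b : n) :
    ∑ i, P i a b ^ 2 ≤ k * (1 - α ^ 2)
      + (if a = b then lam a ^ 2 / (Fintype.card ι : ℝ) else 0) := by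
  have h := H.variance hα hN a b
  set N : ℝ := (Fintype.card ι : ℝ) with hNdef
  by_cases hab : a = b
  · subst hab
    simp only [if_true] at h ⊢
    have e : ∀ i, (P i a a - lam a / N) ^ 2
        = P i a a ^ 2 - 2 * (lam a / N) * P i a a + (lam a / N) ^ 2 := fun i => by ring
    simp_rw [e, Finset.sum_add_distrib, Finset.sum_sub_distrib, ← Finset.mul_sum, H.lam_eq,
      Finset.sum_const, Finset.card_univ, nsmul_eq_mul, ← hNdef] at h
    have e2 : 2 * (lam a / N) * lam a - N * (lam a / N) ^ 2 = lam a ^ 2 / N := by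
      field_simp; ring
    linarith
  · simp only [if_neg hab, sub_zero, add_zero] at h ⊢
    exact h

/-- Lower bound on the sum of squares of the diagonal entries. -/
lemma sum_sq_diag_ge (H : Hyp k α P lam) (hN : 0 < (Fintype.card ι : ℝ)) (a : n) :
    lam a ^ 2 / (Fintype.card ι : ℝ) ≤ ∑ i, P i a a ^ 2 := by
  rw [div_le_iff₀ hN, ← H.lam_eq a]
  have := sq_sum_le_card_mul_sum_sq (s := (Finset.univ : Finset ι)) (f := fun i => P i a a)
  simp only [Finset.card_univ] at this
  linarith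

lemma key_identity (H : Hyp k α P lam) (a : n) :
    (1 + α ^ 2 * ((Fintype.card ι : ℝ) - 1)) * lam a = ∑ b, lam b * ∑ i, P i a b ^ 2 := by
  have h1 : ∀ i, ∑ b, lam b * P i a b ^ 2
      = (1 + α ^ 2 * ((Fintype.card ι : ℝ) - 1)) * P i a a := by
    intro i
    have := congrFun (congrFun (H.PSP i) a) a
    rw [Matrix.smul_apply, smul_eq_mul, Matrix.mul_apply] at this
    rw [← this]
    apply Finset.sum_congr rfl
    intro b _
    rw [Matrix.mul_diagonal, H.entry_symm i b a]; ring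
  rw [← H.lam_eq a, Finset.mul_sum]
  simp_rw [← h1]
  rw [Finset.sum_comm]
  apply Finset.sum_congr rfl
  intro b _
  rw [Finset.mul_sum]

/-- `λ² ≤ c N`. -/
lemma lam_sq_le (H : Hyp k α P lam) (hN : 0 < (Fintype.card ι : ℝ)) (a : n) :
    lam a ^ 2 ≤ (1 + α ^ 2 * ((Fintype.card ι : ℝ) - 1)) * (Fintype.card ι : ℝ) := by
  have h1 := H.key_identity a
  have h2 : lam a * ∑ i, P i a a ^ 2 ≤ ∑ b, lam b * ∑ i, P i a b ^ 2 :=
    Finset.single_le_sum (f := fun b => lam b * ∑ i, P i a b ^ 2)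
      (fun b _ => mul_nonneg (H.lam_nonneg b) (Finset.sum_nonneg fun _ _ => sq_nonneg _))
      (Finset.mem_univ a)
  have h3 := H.sum_sq_diag_ge hN a
  have h4 := H.lam_nonneg a
  rcases h4.eq_or_lt with h0 | h0
  · rw [← h0]
    have h5 := H.key_identity a
    have hN1 : 1 ≤ (Fintype.card ι : ℝ) := by exact_mod_cast hN
    have : 0 ≤ (Fintype.card ι : ℝ) - 1 := by linarith
    have h6 : 0 ≤ (1 + α ^ 2 * ((Fintype.card ι : ℝ) - 1)) * (Fintype.card ι : ℝ) := by positivity
    simpa using h6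
  · have h5 : lam a * (lam a ^ 2 / (Fintype.card ι : ℝ))
        ≤ lam a * (1 + α ^ 2 * ((Fintype.card ι : ℝ) - 1)) := by
      calc lam a * (lam a ^ 2 / (Fintype.card ι : ℝ)) ≤ lam a * ∑ i, P i a a ^ 2 :=
            mul_le_mul_of_nonneg_left h3 h4
        _ ≤ _ := h2
        _ = _ := by rw [← h1]; ring
    have h6 := le_of_mul_le_mul_left h5 h0
    rwa [div_le_iff₀ hN] at h6

/-- The main inequality for an eigenvalue. -/
lemma star_ineq (H : Hyp k α P lam) (hα : α ^ 2 ≤ 1) (hN : 0 < (Fintype.card ι : ℝ)) (a : n) :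
    (1 + α ^ 2 * ((Fintype.card ι : ℝ) - 1)) * lam a
      ≤ k ^ 2 * (Fintype.card ι : ℝ) + lam a ^ 3 / (Fintype.card ι : ℝ) := by
  rw [H.key_identity a]
  have h1 : ∀ b, lam b * ∑ i, P i a b ^ 2
      ≤ lam b * k + (if a = b then lam a ^ 3 / (Fintype.card ι : ℝ) else 0) := by
    intro b
    have h2 := H.sum_sq_entry hα hN a b
    have h3 := H.lam_nonneg b
    have hk : (k : ℝ) * (1 - α ^ 2) ≤ k := by
      have : (0:ℝ) ≤ k := by positivity
      nlinarith [sq_nonneg α]
    by_cases hab : a = b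
    · subst hab
      simp only [if_true] at h2 ⊢
      calc lam a * ∑ i, P i a a ^ 2
          ≤ lam a * (k * (1 - α ^ 2) + lam a ^ 2 / (Fintype.card ι : ℝ)) :=
            mul_le_mul_of_nonneg_left h2 h3
        _ = lam a * (k * (1 - α ^ 2)) + lam a ^ 3 / (Fintype.card ι : ℝ) := by ring
        _ ≤ _ := by
            have := mul_le_mul_of_nonneg_left hk h3
            linarith
    · simp only [if_neg hab, add_zero] at h2 ⊢
      exact mul_le_mul_of_nonneg_left (h2.trans hk) h3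
  refine (Finset.sum_le_sum fun b _ => h1 b).trans ?_
  rw [Finset.sum_add_distrib, Finset.sum_ite_eq, if_pos (Finset.mem_univ a), ← Finset.sum_mul,
    H.sum_lam]
  apply le_of_eq; ring

/-- The spectral dichotomy, in terms of `x = lam a / N`, `r = √(α² + (1 - α²)/N)`. -/
lemma dichotomy (H : Hyp k α P lam) (hk : 1 ≤ k) (h0 : 0 < α) (h1 : α < 1)
    (hN : 0 < (Fintype.card ι : ℝ)) {r : ℝ} (hr0 : 0 < r)
    (hr : r ^ 2 = α ^ 2 + (1 - α ^ 2) / (Fintype.card ι : ℝ)) (a : n) :
    lam a / (Fintype.card ι : ℝ) ≤ r ∧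
    ((lam a / (Fintype.card ι : ℝ) ≤ r / 2 →
      lam a / (Fintype.card ι : ℝ) ≤ 2 * k ^ 2 / α ^ 2 / (Fintype.card ι : ℝ)) ∧
     (r / 2 < lam a / (Fintype.card ι : ℝ) →
      r - 2 * k ^ 2 / α ^ 2 / (Fintype.card ι : ℝ) ≤ lam a / (Fintype.card ι : ℝ))) := by
  have hα : α ^ 2 ≤ 1 := by nlinarith
  have hs := H.star_ineq hα hN a
  have hq := H.lam_sq_le hN a
  have hl := H.lam_nonneg a
  set N : ℝ := (Fintype.card ι : ℝ) with hNdef
  have hc : 1 + α ^ 2 * (N - 1) = r ^ 2 * N := by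
    rw [hr]; field_simp; ring
  rw [hc] at hs hq
  set x : ℝ := lam a / N with hx
  have hlx : lam a = x * N := by rw [hx]; field_simp
  have hx0 : 0 ≤ x := by rw [hx]; positivity
  rw [hlx] at hs hq
  have hxr : x ≤ r := by
    have : x ^ 2 ≤ r ^ 2 := by
      have h2 : x ^ 2 * N ^ 2 ≤ r ^ 2 * N ^ 2 := by nlinarith
      exact le_of_mul_le_mul_right h2 (by positivity)
    exact (abs_le_of_sq_le_sq' this hr0.le).2
  have hstar : x * (r - x) * (r + x) ≤ k ^ 2 / N := by
    have e1 : r ^ 2 * N * (x * N) = r ^ 2 * x * N ^ 2 := by ring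
    have e2 : (k : ℝ) ^ 2 * N + (x * N) ^ 3 / N = (k ^ 2 / N + x ^ 3) * N ^ 2 := by
      field_simp
    rw [e1, e2] at hs
    have h3 := le_of_mul_le_mul_right hs (by positivity)
    nlinarith
  have hrα : α ^ 2 ≤ r ^ 2 := by
    rw [hr]
    have : 0 ≤ (1 - α ^ 2) / N := div_nonneg (by linarith) hN.le
    linarith
  have hkey : ∀ y : ℝ, 0 ≤ y → y * (3 / 4 * r ^ 2) ≤ k ^ 2 / N → y ≤ 2 * k ^ 2 / α ^ 2 / N := by
    intro y hy hy2
    have h4 : y * (3 / 4 * α ^ 2) ≤ k ^ 2 / N := by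
      refine le_trans ?_ hy2
      apply mul_le_mul_of_nonneg_left _ hy
      linarith
    have h5 : y * (α ^ 2 * N) * (3 / 4) ≤ k ^ 2 := by
      rw [le_div_iff₀ hN] at h4
      linarith
    have h6 : y * (α ^ 2 * N) ≤ 2 * k ^ 2 := by
      nlinarith [sq_nonneg (k : ℝ)]
    rw [div_div, le_div_iff₀ (by positivity)]
    linarith
  refine ⟨hxr, fun hle => hkey x hx0 ?_, fun hlt => ?_⟩
  · refine le_trans ?_ hstar
    have : 3 / 4 * r ^ 2 ≤ (r - x) * (r + x) := by nlinarith
    calc x * (3 / 4 * r ^ 2) ≤ x * ((r - x) * (r + x)) := mul_le_mul_of_nonneg_left this hx0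
      _ = _ := by ring
  · have := hkey (r - x) (by linarith) ?_
    · linarith
    · refine le_trans ?_ hstar
      have : 3 / 4 * r ^ 2 ≤ x * (r + x) := by nlinarith
      calc (r - x) * (3 / 4 * r ^ 2) ≤ (r - x) * (x * (r + x)) :=
            mul_le_mul_of_nonneg_left this (by linarith)
        _ = _ := by ring

lemma mulVec_dot (H : Hyp k α P lam) (i : ι) (v u : n → ℝ) :
    (P i *ᵥ v) ⬝ᵥ u = v ⬝ᵥ (P i *ᵥ u) := by
  rw [dotProduct_comm, Matrix.dotProduct_mulVec, ← Matrix.mulVec_transpose, H.symm i,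
    dotProduct_comm]

/-- The conclusion of the spectral part. -/
lemma partA (H : Hyp k α P lam) (hk : 1 ≤ k) (h0 : 0 < α) (h1 : α < 1)
    (hN : 4 * (k + 1) * k ^ 2 / α ^ 3 < (Fintype.card ι : ℝ)) :
    ∃ L : Finset n, L.card ≤ k ∧ ∀ (i : ι) (v : n → ℝ),
      (α - (6 * k ^ 2 / α ^ 3) / (Fintype.card ι : ℝ)) * ∑ a, (P i *ᵥ v) a ^ 2
        ≤ ∑ a ∈ L, (P i *ᵥ v) a ^ 2 ∧
      ∑ a ∈ L, (P i *ᵥ v) a ^ 2
        ≤ (α + (6 * k ^ 2 / α ^ 3) / (Fintype.card ι : ℝ)) * ∑ a, (P i *ᵥ v) a ^ 2 := by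
  have hα : α ^ 2 ≤ 1 := by nlinarith
  have hkR : (1 : ℝ) ≤ k := by exact_mod_cast hk
  set N : ℝ := (Fintype.card ι : ℝ) with hNdef
  have hN0 : 0 < N := lt_of_le_of_lt (by positivity) hN
  have hrpos : 0 < α ^ 2 + (1 - α ^ 2) / N := by
    have : 0 ≤ (1 - α ^ 2) / N := div_nonneg (by linarith) hN0.le
    positivity
  obtain ⟨r, hr0, hr⟩ : ∃ r : ℝ, 0 < r ∧ r ^ 2 = α ^ 2 + (1 - α ^ 2) / N :=
    ⟨Real.sqrt _, Real.sqrt_pos.mpr hrpos, Real.sq_sqrt hrpos.le⟩
  have hD := H.dichotomy hk h0 h1 hN0 hr0 hr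
  rw [← hNdef] at hD
  set ε : ℝ := 2 * k ^ 2 / α ^ 2 / N with hε
  have hε0 : 0 < ε := by positivity
  have hαr : α ≤ r := by
    have : α ^ 2 ≤ r ^ 2 := by
      rw [hr]
      have : 0 ≤ (1 - α ^ 2) / N := div_nonneg (by linarith) hN0.le
      linarith
    exact (abs_le_of_sq_le_sq' this hr0.le).2
  -- `2 (k+1) ε < α`
  have hεs : 2 * (k + 1) * ε < α := by
    have h2 : 4 * (k + 1) * k ^ 2 < N * α ^ 3 := by
      rwa [div_lt_iff₀ (by positivity)] at hN
    have h3 : 2 * (k + 1) * ε = 4 * (k + 1) * k ^ 2 / (α ^ 2 * N) := by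
      rw [hε]; field_simp; ring
    rw [h3, div_lt_iff₀ (by positivity)]
    nlinarith
  have hεr : ε < r / 2 := by nlinarith
  refine ⟨Finset.univ.filter (fun a => r / 2 < lam a / N), ?_, ?_⟩
  · -- cardinality
    by_contra hcon
    push Not at hcon
    set L := Finset.univ.filter (fun a => r / 2 < lam a / N) with hL
    have hc1 : ((k : ℝ) + 1) ≤ L.card := by exact_mod_cast hcon
    have h2 : ∑ a ∈ L, (lam a / N) ^ 2 ≤ k * r ^ 2 := by
      have h3 : ∑ a, (lam a / N) ^ 2 = k * r ^ 2 := by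
        simp_rw [div_pow, ← Finset.sum_div]
        rw [H.sum_lam_sq, ← hNdef, hr]
        field_simp; ring
      rw [← h3]
      exact Finset.sum_le_univ_sum_of_nonneg fun a => sq_nonneg _
    have h4 : (L.card : ℝ) * (r - ε) ^ 2 ≤ ∑ a ∈ L, (lam a / N) ^ 2 := by
      rw [← nsmul_eq_mul]
      apply Finset.card_nsmul_le_sum
      intro a ha
      have ha' : r / 2 < lam a / N := (Finset.mem_filter.mp ha).2
      have h5 := (hD a).2.2 ha'
      have h6 : 0 ≤ r - ε := by linarith
      exact pow_le_pow_left₀ h6 h5 2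
    have h5 : ((k : ℝ) + 1) * (r - ε) ^ 2 ≤ k * r ^ 2 :=
      (mul_le_mul_of_nonneg_right hc1 (sq_nonneg _)).trans (h4.trans h2)
    have h6 : (k + 1) * (r ^ 2 - 2 * r * ε) ≤ k * r ^ 2 := by
      nlinarith [sq_nonneg ε]
    have h7 : r * r ≤ r * (2 * (k + 1) * ε) := by nlinarith
    have h8 := le_of_mul_le_mul_left h7 hr0
    linarith
  · intro i v
    set w : n → ℝ := P i *ᵥ v with hw
    -- `∑ x_a w_a² = r² |w|²`
    have hkey : ∑ a, (lam a / N) * w a ^ 2 = r ^ 2 * ∑ a, w a ^ 2 := by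
      have e1 : ∑ a, lam a * w a ^ 2 = w ⬝ᵥ (diagonal lam *ᵥ w) := by
        unfold dotProduct
        apply Finset.sum_congr rfl
        intro a _
        rw [Matrix.mulVec_diagonal]; ring
      have e2 : w ⬝ᵥ (diagonal lam *ᵥ w) = (1 + α ^ 2 * (N - 1)) * (v ⬝ᵥ (P i *ᵥ v)) := by
        rw [hw, H.mulVec_dot, Matrix.mulVec_mulVec, Matrix.mulVec_mulVec, H.PSP i,
          Matrix.smul_mulVec, dotProduct_smul, smul_eq_mul]
      have e3 : ∑ a, w a ^ 2 = v ⬝ᵥ (P i *ᵥ v) := by
        have : ∑ a, w a ^ 2 = w ⬝ᵥ w := by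
          unfold dotProduct
          simp only [sq]
        rw [this, hw, H.mulVec_dot, Matrix.mulVec_mulVec, H.idem i]
      have hc : 1 + α ^ 2 * (N - 1) = r ^ 2 * N := by
        rw [hr]; field_simp; ring
      have e4 : ∑ a, (lam a / N) * w a ^ 2 = (∑ a, lam a * w a ^ 2) / N := by
        rw [Finset.sum_div]
        apply Finset.sum_congr rfl
        intro a _; ring
      rw [e4, e1, e2, hc, e3]
      field_simp
    set W : ℝ := ∑ a, w a ^ 2 with hW
    set L := Finset.univ.filter (fun a => r / 2 < lam a / N) with hL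
    set WL : ℝ := ∑ a ∈ L, w a ^ 2 with hWL
    have hW0 : 0 ≤ W := Finset.sum_nonneg fun _ _ => sq_nonneg _
    have hWL0 : 0 ≤ WL := Finset.sum_nonneg fun _ _ => sq_nonneg _
    have hup : (r - ε) * WL ≤ r ^ 2 * W := by
      rw [← hkey, hWL, Finset.mul_sum]
      calc ∑ a ∈ L, (r - ε) * w a ^ 2 ≤ ∑ a ∈ L, (lam a / N) * w a ^ 2 := by
            apply Finset.sum_le_sum
            intro a ha
            exact mul_le_mul_of_nonneg_right ((hD a).2.2 (Finset.mem_filter.mp ha).2)
              (sq_nonneg _)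
        _ ≤ _ := Finset.sum_le_univ_sum_of_nonneg fun a =>
            mul_nonneg (div_nonneg (H.lam_nonneg a) hN0.le) (sq_nonneg _)
    have hlo : r ^ 2 * W ≤ r * WL + ε * W := by
      rw [← hkey, hWL, hW, Finset.mul_sum, Finset.mul_sum]
      have : ∑ a ∈ L, r * w a ^ 2 = ∑ a, (if r / 2 < lam a / N then r * w a ^ 2 else 0) := by
        rw [hL, Finset.sum_filter]
      rw [this, ← Finset.sum_add_distrib]
      apply Finset.sum_le_sum
      intro a _
      have hwa := sq_nonneg (w a)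
      split_ifs with hif
      · have := mul_le_mul_of_nonneg_right (hD a).1 hwa
        have := mul_nonneg hε0.le hwa
        linarith
      · have := mul_le_mul_of_nonneg_right ((hD a).2.1 (not_lt.mp hif)) hwa
        linarith
    -- numeric facts
    have hr1 : r - α ≤ 1 / (2 * α) / N := by
      have h3 : (r - α) * (2 * α) ≤ (r - α) * (r + α) := by
        apply mul_le_mul_of_nonneg_left _ (by linarith); linarith
      have h4 : (r - α) * (r + α) = (1 - α ^ 2) / N := by nlinarith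
      have h5 : (1 - α ^ 2) / N ≤ 1 / N := by
        apply div_le_div_of_nonneg_right _ hN0.le; nlinarith
      rw [div_div, le_div_iff₀ (by positivity)]
      have h6 : (r - α) * (2 * α) ≤ 1 / N := by linarith
      rw [le_div_iff₀ hN0] at h6
      linarith
    have hη1 : 1 / (2 * α) / N + 2 * ε ≤ 6 * k ^ 2 / α ^ 3 / N := by
      have : 1 / (2 * α) / N + 2 * ε = (1 / (2 * α) + 4 * k ^ 2 / α ^ 2) / N := by
        rw [hε]; ring
      rw [this]
      apply div_le_div_of_nonneg_right _ hN0.le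
      rw [le_div_iff₀ (by positivity)]
      have e : (1 / (2 * α) + 4 * k ^ 2 / α ^ 2) * α ^ 3 = α ^ 2 / 2 + 4 * k ^ 2 * α := by
        field_simp
      rw [e]
      nlinarith [sq_nonneg (k : ℝ)]
    have hη2 : ε / α ≤ 6 * k ^ 2 / α ^ 3 / N := by
      have : ε / α = (2 * k ^ 2 / α ^ 3) / N := by
        rw [hε]; field_simp
      rw [this]
      apply div_le_div_of_nonneg_right _ hN0.le
      apply div_le_div_of_nonneg_right _ (by positivity)
      nlinarith [sq_nonneg (k : ℝ)]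
    have hr_le1 : r ≤ 1 := by
      have : r ^ 2 ≤ 1 := by
        rw [hr]
        have hN1 : 1 ≤ N := by
          have h8 : 0 < Fintype.card ι := by
            rw [hNdef] at hN0
            exact_mod_cast hN0
          rw [hNdef]
          exact_mod_cast h8
        have : (1 - α ^ 2) / N ≤ 1 - α ^ 2 := div_le_self (by linarith) hN1
        linarith
      nlinarith
    constructor
    · -- lower
      have h3 : (α - ε / α) * W ≤ WL := by
        have h4 : (r - ε / r) * W ≤ WL := by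
          have h5 : r * ((r - ε / r) * W) ≤ r * WL := by
            have : r * ((r - ε / r) * W) = r ^ 2 * W - ε * W := by field_simp
            rw [this]; linarith
          exact le_of_mul_le_mul_left h5 hr0
        refine le_trans (mul_le_mul_of_nonneg_right ?_ hW0) h4
        have : ε / r ≤ ε / α := div_le_div_of_nonneg_left hε0.le h0 hαr
        linarith
      refine le_trans (mul_le_mul_of_nonneg_right ?_ hW0) h3
      linarith
    · have h3 : WL ≤ (r + 2 * ε) * W := by
        have h4 : r ^ 2 ≤ (r - ε) * (r + 2 * ε) := by nlinarith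
        have h5 : (r - ε) * WL ≤ (r - ε) * ((r + 2 * ε) * W) := by
          calc (r - ε) * WL ≤ r ^ 2 * W := hup
            _ ≤ (r - ε) * (r + 2 * ε) * W := mul_le_mul_of_nonneg_right h4 hW0
            _ = _ := by ring
        exact le_of_mul_le_mul_left h5 (by linarith)
      refine h3.trans (mul_le_mul_of_nonneg_right ?_ hW0)
      linarith

end Hyp

end PartA

end EIS
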