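import Mathlib
import Pool.Agent.MP932050.PartA

set_option linter.unusedSectionVars false

open Matrix Finset

namespace EIS

section Fro

variable {l m n : Type*} [Fintype l] [Fintype m] [Fintype n]

/-- Frobenius norm. -/
noncomputable def fro (A : Matrix m n ℝ) : ℝ := Real.sqrt (nsq A)

lemma fro_nonneg (A : Matrix m n ℝ) : 0 ≤ fro A := Real.sqrt_nonneg _

lemma fro_sq (A : Matrix m n ℝ) : fro A ^ 2 = nsq A := Real.sq_sqrt (nsq_nonneg A)

attribute [local instance] Matrix.frobeniusNormedAddCommGroup Matrix.frobeniusNormedSpace in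
lemma fro_eq_norm (A : Matrix m n ℝ) : fro A = ‖A‖ := by
  rw [Matrix.frobenius_norm_def, fro, nsq, Real.sqrt_eq_rpow]
  simp

lemma fro_add_le (A B : Matrix m n ℝ) : fro (A + B) ≤ fro A + fro B := by
  rw [fro_eq_norm, fro_eq_norm, fro_eq_norm]
  let _ := Matrix.frobeniusNormedAddCommGroup (m := m) (n := n) (α := ℝ)
  exact norm_add_le A B

lemma fro_mul_le (A : Matrix l m ℝ) (B : Matrix m n ℝ) : fro (A * B) ≤ fro A * fro B := by
  rw [fro_eq_norm, fro_eq_norm, fro_eq_norm]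
  exact Matrix.frobenius_norm_mul A B

lemma nsq_smul (c : ℝ) (A : Matrix m n ℝ) : nsq (c • A) = c ^ 2 * nsq A := by
  unfold nsq
  simp only [Matrix.smul_apply, smul_eq_mul, mul_pow, Finset.mul_sum]

lemma fro_smul (c : ℝ) (A : Matrix m n ℝ) : fro (c • A) = |c| * fro A := by
  unfold fro
  rw [nsq_smul, Real.sqrt_mul (sq_nonneg c), Real.sqrt_sq_eq_abs]

lemma fro_neg (A : Matrix m n ℝ) : fro (-A) = fro A := by
  have := fro_smul (-1) A
  simpa using this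

lemma fro_transpose (A : Matrix m n ℝ) : fro Aᵀ = fro A := by
  unfold fro; rw [nsq_transpose]

lemma nsq_le_of_fro_le {A : Matrix m n ℝ} {c : ℝ} (h : fro A ≤ c) : nsq A ≤ c ^ 2 := by
  rw [← fro_sq]
  exact pow_le_pow_left₀ (fro_nonneg A) h 2

lemma fro_le_of_nsq_le {A : Matrix m n ℝ} {c : ℝ} (hc : 0 ≤ c) (h : nsq A ≤ c ^ 2) :
    fro A ≤ c := by
  rw [← fro_sq] at h
  exact (abs_le_of_sq_le_sq' h hc).2

/-- Positive semidefinite entries. -/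
lemma psd_entry [DecidableEq n] (A : Matrix n n ℝ) (hs : Aᵀ = A)
    (h : ∀ v : n → ℝ, 0 ≤ v ⬝ᵥ (A *ᵥ v)) (a b : n) : A a b ^ 2 ≤ A a a * A b b := by
  have hsym : A b a = A a b := by
    have := congrFun (congrFun hs a) b
    simpa [Matrix.transpose_apply] using this
  have hx : ∀ x : ℝ, 0 ≤ A b b * (x * x) + (2 * A a b) * x + A a a := by
    intro x
    have h1 := h (Pi.single a 1 + x • Pi.single b 1)
    rw [Matrix.mulVec_add, Matrix.mulVec_smul, add_dotProduct, dotProduct_add, dotProduct_add,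
      smul_dotProduct, smul_dotProduct, dotProduct_smul, dotProduct_smul] at h1
    simp only [Matrix.mulVec_single_one, single_one_dotProduct, Matrix.col_apply, smul_eq_mul] at h1
    rw [hsym] at h1
    linarith
  have := discrim_le_zero hx
  unfold discrim at this
  nlinarith

lemma psd_nsq_le [DecidableEq n] (A : Matrix n n ℝ) (hs : Aᵀ = A)
    (h : ∀ v : n → ℝ, 0 ≤ v ⬝ᵥ (A *ᵥ v)) : nsq A ≤ (trace A) ^ 2 := by
  unfold nsq Matrix.trace
  rw [sq, Finset.sum_mul_sum]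
  apply Finset.sum_le_sum
  intro a _
  apply Finset.sum_le_sum
  intro b _
  exact psd_entry A hs h a b

lemma psd_trace_nonneg [DecidableEq n] (A : Matrix n n ℝ)
    (h : ∀ v : n → ℝ, 0 ≤ v ⬝ᵥ (A *ᵥ v)) : 0 ≤ trace A := by
  unfold Matrix.trace
  apply Finset.sum_nonneg
  intro a _
  have h1 := h (Pi.single a 1)
  simpa [Matrix.mulVec_single_one, single_one_dotProduct, Matrix.col_apply] using h1

lemma sum_swap3 {A B C : Type*} [Fintype A] [Fintype B] [Fintype C] (f : A → B → C → ℝ) :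
    ∑ i, ∑ j, ∑ p, f i j p = ∑ p, ∑ i, ∑ j, f i j p := by
  calc ∑ i, ∑ j, ∑ p, f i j p = ∑ i, ∑ p, ∑ j, f i j p := by
        apply Finset.sum_congr rfl; intro i _; exact Finset.sum_comm
    _ = _ := Finset.sum_comm

/-- The partial transpose inequality. -/
lemma partial_transpose {ι : Type*} [Fintype ι] (Z : ι → Matrix m n ℝ) :
    0 ≤ ∑ i, ∑ j, (trace ((Z i)ᵀ * Z j) ^ 2
      + trace (((Z i)ᵀ * Z j) * ((Z i)ᵀ * Z j))) := by
  have h1 : ∀ i j, trace ((Z i)ᵀ * Z j) ^ 2 + trace (((Z i)ᵀ * Z j) * ((Z i)ᵀ * Z j))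
      = ∑ p, ∑ q, ∑ a, ∑ b, (Z i p a * Z i q b * (Z j p a * Z j q b)
        + Z i p a * Z i q b * (Z j p b * Z j q a)) := by
    intro i j
    simp_rw [Finset.sum_add_distrib]
    congr 1
    · rw [trace_transpose_mul, sq, Finset.sum_mul_sum]
      apply Finset.sum_congr rfl; intro p _
      apply Finset.sum_congr rfl; intro q _
      rw [Finset.sum_mul_sum]
      apply Finset.sum_congr rfl; intro a _
      apply Finset.sum_congr rfl; intro b _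
      ring
    · simp only [Matrix.trace, Matrix.diag_apply, Matrix.mul_apply, Matrix.transpose_apply]
      have e1 : ∀ a b, (∑ p, Z i p a * Z j p b) * (∑ q, Z i q b * Z j q a)
          = ∑ p, ∑ q, Z i p a * Z i q b * (Z j p b * Z j q a) := by
        intro a b
        rw [Finset.sum_mul_sum]
        apply Finset.sum_congr rfl; intro p _
        apply Finset.sum_congr rfl; intro q _
        ring
      simp_rw [e1]
      rw [sum_swap3 (fun a b p => ∑ q, Z i p a * Z i q b * (Z j p b * Z j q a))]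
      apply Finset.sum_congr rfl; intro p _
      exact sum_swap3 (fun a b q => Z i p a * Z i q b * (Z j p b * Z j q a))
  simp_rw [h1]
  rw [sum_swap3]
  apply Finset.sum_nonneg; intro p _
  rw [sum_swap3]
  apply Finset.sum_nonneg; intro q _
  rw [sum_swap3]
  have h2 : ∀ a, (∑ i, ∑ j, ∑ b, (Z i p a * Z i q b * (Z j p a * Z j q b)
        + Z i p a * Z i q b * (Z j p b * Z j q a)))
      = ∑ b, ((∑ i, Z i p a * Z i q b) ^ 2
        + (∑ i, Z i p a * Z i q b) * (∑ i, Z i p b * Z i q a)) := by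
    intro a
    rw [sum_swap3]
    apply Finset.sum_congr rfl; intro b _
    rw [sq, Finset.sum_mul_sum, Finset.sum_mul_sum]
    simp_rw [← Finset.sum_add_distrib]
  simp_rw [h2]
  set C : n → n → ℝ := fun a b => ∑ i, Z i p a * Z i q b with hC
  have h3 : ∑ a, ∑ b, (C a b ^ 2 + C a b * C b a)
      = ∑ a, ∑ b, (C a b + C b a) ^ 2 / 2 := by
    have e : ∑ a, ∑ b, C b a ^ 2 = ∑ a, ∑ b, C a b ^ 2 := Finset.sum_comm
    have e2 : ∀ a b, (C a b + C b a) ^ 2 / 2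
        = C a b ^ 2 / 2 + C a b * C b a + C b a ^ 2 / 2 := fun a b => by ring
    simp_rw [e2, Finset.sum_add_distrib, ← Finset.sum_div, e]
    ring
  change 0 ≤ ∑ a, ∑ b, (C a b ^ 2 + C a b * C b a)
  rw [h3]
  positivity

/-- `∑ ‖F i j‖² ≤ ½ ∑ ‖F i j + F i jᵀ‖² + ∑ (tr F i j)²`. -/
lemma gram_bound {ι : Type*} [Fintype ι] (Z : ι → Matrix m n ℝ) :
    ∑ i, ∑ j, nsq ((Z i)ᵀ * Z j) ≤
      ∑ i, ∑ j, (nsq ((Z i)ᵀ * Z j + ((Z i)ᵀ * Z j)ᵀ) / 2 + trace ((Z i)ᵀ * Z j) ^ 2) := by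
  have h := partial_transpose Z
  have h1 : ∀ F : Matrix n n ℝ, nsq (F + Fᵀ) = 2 * nsq F + 2 * trace (F * F) := by
    intro F
    rw [nsq_eq_trace, nsq_eq_trace, Matrix.transpose_add, Matrix.transpose_transpose]
    have : (Fᵀ + F) * (F + Fᵀ) = Fᵀ * F + Fᵀ * Fᵀ + F * F + F * Fᵀ := by noncomm_ring
    rw [this, Matrix.trace_add, Matrix.trace_add, Matrix.trace_add, ← Matrix.transpose_mul,
      Matrix.trace_transpose, Matrix.trace_mul_comm F Fᵀ]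
    ring
  have h2 : ∀ i j, nsq ((Z i)ᵀ * Z j + ((Z i)ᵀ * Z j)ᵀ) / 2 + trace ((Z i)ᵀ * Z j) ^ 2
      = nsq ((Z i)ᵀ * Z j) + (trace ((Z i)ᵀ * Z j) ^ 2
      + trace (((Z i)ᵀ * Z j) * ((Z i)ᵀ * Z j))) := by
    intro i j
    rw [h1]; ring
  simp_rw [h2]
  simp_rw [Finset.sum_add_distrib] at h ⊢
  linarith

/-- `(∑ ‖Z i‖²)² ≤ d ∑ ‖(Z i)ᵀ Z j‖²`. -/
lemma rank_bound [DecidableEq m] {ι : Type*} [Fintype ι] (Z : ι → Matrix m n ℝ) :
    (∑ i, nsq (Z i)) ^ 2 ≤ (Fintype.card m : ℝ) * ∑ i, ∑ j, nsq ((Z i)ᵀ * Z j) := by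
  have h1 : trace (∑ i, Z i * (Z i)ᵀ) = ∑ i, nsq (Z i) := by
    rw [Matrix.trace_sum]
    apply Finset.sum_congr rfl; intro i _
    rw [nsq_eq_trace']
  have h2 : nsq (∑ i, Z i * (Z i)ᵀ) = ∑ i, ∑ j, nsq ((Z i)ᵀ * Z j) := by
    rw [nsq_eq_trace, Matrix.transpose_sum, Finset.sum_mul, Matrix.trace_sum]
    apply Finset.sum_congr rfl; intro i _
    rw [Finset.mul_sum, Matrix.trace_sum]
    apply Finset.sum_congr rfl; intro j _
    rw [nsq_eq_trace, Matrix.transpose_mul, Matrix.transpose_mul, Matrix.transpose_transpose,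
      ← Matrix.mul_assoc (Z i * (Z i)ᵀ), Matrix.trace_mul_comm (Z i * (Z i)ᵀ * Z j)]
    simp only [Matrix.mul_assoc]
  rw [← h1, ← h2]
  exact trace_sq_le _

end Fro


section PartB

variable {n ι : Type*} [Fintype n] [Fintype ι] [DecidableEq n] [DecidableEq ι]

/-- The data used in the second part: the projections `P i`, a projection `Q` (onto the span of the
large eigenvectors) such that `Q P i Q ≈ α Q`. -/
structure Split (k : ℕ) (α δ : ℝ) (P : ι → Matrix n n ℝ) (Q : Matrix n n ℝ) : Prop where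
  symm : ∀ i, (P i)ᵀ = P i
  idem : ∀ i, P i * P i = P i
  tr : ∀ i, trace (P i) = (k : ℝ)
  iso : ∀ i j, i ≠ j → P i * P j * P i = (α ^ 2) • P i
  Qsymm : Qᵀ = Q
  Qidem : Q * Q = Q
  Qtr : trace Q ≤ k
  hi : ∀ i v, (Q *ᵥ (P i *ᵥ v)) ⬝ᵥ (Q *ᵥ (P i *ᵥ v)) ≤ (α + δ) * ((P i *ᵥ v) ⬝ᵥ (P i *ᵥ v))
  lo : ∀ i v, (α - δ) * ((P i *ᵥ v) ⬝ᵥ (P i *ᵥ v)) ≤ (Q *ᵥ (P i *ᵥ v)) ⬝ᵥ (Q *ᵥ (P i *ᵥ v))
  comm : (1 - Q) * (∑ i, P i) * Q = 0

/-- Splitting matrices `Q P i Q`. -/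
def GG (P : ι → Matrix n n ℝ) (Q : Matrix n n ℝ) (i : ι) : Matrix n n ℝ := Q * P i * Q

/-- Off-diagonal part `(1 - Q) P i Q`. -/
def ZZ (P : ι → Matrix n n ℝ) (Q : Matrix n n ℝ) (i : ι) : Matrix n n ℝ := (1 - Q) * P i * Q

lemma nsq_eq_cols {m : Type*} [Fintype m] (Y : Matrix n m ℝ) :
    nsq Y = ∑ b, (fun a => Y a b) ⬝ᵥ (fun a => Y a b) := by
  unfold nsq dotProduct
  rw [Finset.sum_comm]
  simp only [sq]

variable {k : ℕ} {α δ : ℝ} {P : ι → Matrix n n ℝ} {Q : Matrix n n ℝ}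

namespace Split

section
variable {m : Type*} [Fintype m]

lemma hiM (S : Split k α δ P Q) (i : ι) (X : Matrix n m ℝ) :
    nsq (Q * (P i * X)) ≤ (α + δ) * nsq (P i * X) := by
  rw [nsq_eq_cols, nsq_eq_cols, Finset.mul_sum]
  apply Finset.sum_le_sum
  intro b _
  exact S.hi i (fun a => X a b)

lemma loM (S : Split k α δ P Q) (i : ι) (X : Matrix n m ℝ) :
    (α - δ) * nsq (P i * X) ≤ nsq (Q * (P i * X)) := by
  rw [nsq_eq_cols, nsq_eq_cols, Finset.mul_sum]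
  apply Finset.sum_le_sum
  intro b _
  exact S.lo i (fun a => X a b)

lemma Rsymm (S : Split k α δ P Q) : (1 - Q)ᵀ = 1 - Q := by
  rw [Matrix.transpose_sub, Matrix.transpose_one, S.Qsymm]

lemma Ridem (S : Split k α δ P Q) : (1 - Q) * (1 - Q) = 1 - Q := by
  have : (1 - Q) * (1 - Q) = 1 - Q - Q + Q * Q := by noncomm_ring
  rw [this, S.Qidem]; noncomm_ring

lemma QQ (S : Split k α δ P Q) (X : Matrix n m ℝ) : Q * (Q * X) = Q * X := by
  rw [← Matrix.mul_assoc, S.Qidem]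

lemma RR (S : Split k α δ P Q) (X : Matrix n m ℝ) : (1 - Q) * ((1 - Q) * X) = (1 - Q) * X := by
  rw [← Matrix.mul_assoc, S.Ridem]

lemma PP (S : Split k α δ P Q) (i : ι) (X : Matrix n m ℝ) : P i * (P i * X) = P i * X := by
  rw [← Matrix.mul_assoc, S.idem]

lemma pyth (S : Split k α δ P Q) (Y : Matrix n m ℝ) :
    nsq Y = nsq (Q * Y) + nsq ((1 - Q) * Y) := by
  rw [nsq_eq_trace, nsq_eq_trace, nsq_eq_trace, Matrix.transpose_mul, Matrix.transpose_mul,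
    S.Qsymm, S.Rsymm, Matrix.mul_assoc, Matrix.mul_assoc, S.QQ, S.RR, ← Matrix.trace_add,
    ← Matrix.mul_add, ← Matrix.add_mul]
  simp

end

lemma nsq_P (S : Split k α δ P Q) (i : ι) : nsq (P i) = k := by
  rw [nsq_eq_trace, S.symm, S.idem, S.tr]

lemma g_le (S : Split k α δ P Q) (i : ι) : nsq (Q * P i) ≤ (α + δ) * k := by
  have := S.hiM i (1 : Matrix n n ℝ)
  simpa [S.nsq_P] using this

lemma g_ge (S : Split k α δ P Q) (i : ι) : (α - δ) * k ≤ nsq (Q * P i) := by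
  have := S.loM i (1 : Matrix n n ℝ)
  simpa [S.nsq_P] using this

lemma nsq_PQ (S : Split k α δ P Q) (i : ι) : nsq (P i * Q) = nsq (Q * P i) := by
  rw [← nsq_transpose, Matrix.transpose_mul, S.symm, S.Qsymm]

lemma nsq_QP_eq_trace (S : Split k α δ P Q) (i : ι) : nsq (Q * P i) = trace (Q * P i) := by
  rw [nsq_eq_trace, Matrix.transpose_mul, S.symm, S.Qsymm, Matrix.mul_assoc, S.QQ,
    Matrix.trace_mul_comm, Matrix.mul_assoc, S.idem]

lemma trace_GG (S : Split k α δ P Q) (i : ι) : trace (GG P Q i) = nsq (Q * P i) := by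
  rw [S.nsq_QP_eq_trace, GG, Matrix.trace_mul_comm, S.QQ]

lemma GG_symm (S : Split k α δ P Q) (i : ι) : (GG P Q i)ᵀ = GG P Q i := by
  rw [GG, Matrix.transpose_mul, Matrix.transpose_mul, S.symm, S.Qsymm, Matrix.mul_assoc]

lemma nsq_GG_le (S : Split k α δ P Q) (i : ι) :
    nsq (GG P Q i) ≤ (α + δ) * nsq (Q * P i) := by
  rw [GG, Matrix.mul_assoc, ← S.nsq_PQ]
  exact S.hiM i Q

lemma nsq_GG_ge (S : Split k α δ P Q) (i : ι) :
    (α - δ) * nsq (Q * P i) ≤ nsq (GG P Q i) := by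
  rw [GG, Matrix.mul_assoc, ← S.nsq_PQ]
  exact S.loM i Q

lemma nsq_ZZ (S : Split k α δ P Q) (i : ι) :
    nsq (ZZ P Q i) = nsq (Q * P i) - nsq (GG P Q i) := by
  have := S.pyth (P i * Q)
  rw [S.nsq_PQ] at this
  rw [GG, ZZ, Matrix.mul_assoc, Matrix.mul_assoc]
  linarith

lemma nsq_ZZ_le (S : Split k α δ P Q) (hδ : 0 ≤ 1 - (α - δ)) (i : ι) :
    nsq (ZZ P Q i) ≤ (1 - (α - δ)) * ((α + δ) * k) := by
  rw [S.nsq_ZZ]
  have h1 := S.nsq_GG_ge i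
  have h2 := S.g_le i
  have h3 := mul_le_mul_of_nonneg_left h2 hδ
  linarith

lemma nsq_ZZ_ge (S : Split k α δ P Q) (hδ : 0 ≤ 1 - (α + δ)) (i : ι) :
    (1 - (α + δ)) * ((α - δ) * k) ≤ nsq (ZZ P Q i) := by
  rw [S.nsq_ZZ]
  have h1 := S.nsq_GG_le i
  have h2 := S.g_ge i
  have h3 := mul_le_mul_of_nonneg_left h2 hδ
  linarith

/-- `D i = (α+δ) Q - G i`. -/
def _root_.EIS.DD (α δ : ℝ) (P : ι → Matrix n n ℝ) (Q : Matrix n n ℝ) (i : ι) : Matrix n n ℝ :=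
  (α + δ) • Q - GG P Q i

lemma DD_symm (S : Split k α δ P Q) (i : ι) : (DD α δ P Q i)ᵀ = DD α δ P Q i := by
  rw [DD, Matrix.transpose_sub, Matrix.transpose_smul, S.Qsymm, S.GG_symm]

lemma mulVec_dot (S : Split k α δ P Q) (i : ι) (v u : n → ℝ) :
    (P i *ᵥ v) ⬝ᵥ u = v ⬝ᵥ (P i *ᵥ u) := by
  rw [dotProduct_comm, Matrix.dotProduct_mulVec, ← Matrix.mulVec_transpose, S.symm i,
    dotProduct_comm]

lemma Q_dot (S : Split k α δ P Q) (v u : n → ℝ) :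
    (Q *ᵥ v) ⬝ᵥ u = v ⬝ᵥ (Q *ᵥ u) := by
  rw [dotProduct_comm, Matrix.dotProduct_mulVec, ← Matrix.mulVec_transpose, S.Qsymm,
    dotProduct_comm]

lemma dot_self_nonneg (v : n → ℝ) : 0 ≤ v ⬝ᵥ v := by
  unfold dotProduct
  exact Finset.sum_nonneg fun _ _ => mul_self_nonneg _

lemma dot_sq_le (v u : n → ℝ) : (v ⬝ᵥ u) ^ 2 ≤ (v ⬝ᵥ v) * (u ⬝ᵥ u) := by
  unfold dotProduct
  have := Finset.sum_mul_sq_le_sq_mul_sq Finset.univ v u
  simpa [sq] using this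

lemma DD_psd (S : Split k α δ P Q) (hh : 0 ≤ α + δ) (i : ι) (v : n → ℝ) :
    0 ≤ v ⬝ᵥ (DD α δ P Q i *ᵥ v) := by
  set u := Q *ᵥ v with hu
  have hQu : Q *ᵥ u = u := by rw [hu, Matrix.mulVec_mulVec, S.Qidem]
  have e1 : v ⬝ᵥ (DD α δ P Q i *ᵥ v) = (α + δ) * (u ⬝ᵥ u) - (P i *ᵥ u) ⬝ᵥ (P i *ᵥ u) := by
    have hA : u ⬝ᵥ u = v ⬝ᵥ (Q *ᵥ v) := by
      rw [hu, S.Q_dot, Matrix.mulVec_mulVec, S.Qidem]
    have hB : (P i *ᵥ u) ⬝ᵥ (P i *ᵥ u) = v ⬝ᵥ (GG P Q i *ᵥ v) := by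
      rw [S.mulVec_dot, Matrix.mulVec_mulVec, S.idem, hu, S.Q_dot, GG, ← Matrix.mulVec_mulVec,
        ← Matrix.mulVec_mulVec]
    rw [hA, hB, DD, Matrix.sub_mulVec, dotProduct_sub, Matrix.smul_mulVec, dotProduct_smul,
      smul_eq_mul]
  rw [e1]
  set a := (P i *ᵥ u) ⬝ᵥ (P i *ᵥ u) with ha
  have ha0 : 0 ≤ a := dot_self_nonneg _
  have hu0 : 0 ≤ u ⬝ᵥ u := dot_self_nonneg _
  have h1 : a = u ⬝ᵥ (Q *ᵥ (P i *ᵥ u)) := by
    rw [ha, S.mulVec_dot, Matrix.mulVec_mulVec, S.idem, ← S.Q_dot, hQu]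
  have h2 : a ^ 2 ≤ (u ⬝ᵥ u) * ((α + δ) * a) := by
    calc a ^ 2 = (u ⬝ᵥ (Q *ᵥ (P i *ᵥ u))) ^ 2 := by rw [← h1]
      _ ≤ (u ⬝ᵥ u) * ((Q *ᵥ (P i *ᵥ u)) ⬝ᵥ (Q *ᵥ (P i *ᵥ u))) := dot_sq_le _ _
      _ ≤ _ := mul_le_mul_of_nonneg_left (S.hi i u) hu0
  rcases ha0.eq_or_lt with h0 | h0
  · rw [← h0]
    have := mul_nonneg hh hu0
    linarith
  · have h3 : a * a ≤ a * ((α + δ) * (u ⬝ᵥ u)) := by nlinarith
    have := le_of_mul_le_mul_left h3 h0
    linarith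

lemma trace_DD_le (S : Split k α δ P Q) (hh : 0 ≤ α + δ) (i : ι) :
    trace (DD α δ P Q i) ≤ 2 * k * δ := by
  rw [DD, Matrix.trace_sub, Matrix.trace_smul, smul_eq_mul, S.trace_GG]
  have h1 := mul_le_mul_of_nonneg_left S.Qtr hh
  have h2 := S.g_ge i
  linarith

lemma fro_DD_le (S : Split k α δ P Q) (hh : 0 ≤ α + δ) (i : ι) :
    fro (DD α δ P Q i) ≤ 2 * k * δ := by
  have h1 := psd_trace_nonneg _ (S.DD_psd hh i)
  have h2 := S.trace_DD_le hh i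
  apply fro_le_of_nsq_le (h1.trans h2)
  exact (psd_nsq_le _ (S.DD_symm i) (S.DD_psd hh i)).trans (pow_le_pow_left₀ h1 h2 2)

lemma fro_GG_le (S : Split k α δ P Q) (hk : 1 ≤ k) (hh : 0 ≤ α + δ) (hh1 : α + δ ≤ 1) (i : ι) :
    fro (GG P Q i) ≤ k := by
  have hkR : (1 : ℝ) ≤ k := by exact_mod_cast hk
  apply fro_le_of_nsq_le (by positivity)
  have h1 := S.nsq_GG_le i
  have h2 := S.g_le i
  have h3 : nsq (Q * P i) ≤ k := h2.trans (by nlinarith)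
  have h4 := nsq_nonneg (Q * P i)
  have h5 : nsq (GG P Q i) ≤ k := h1.trans (by nlinarith)
  nlinarith

lemma Q_GG (S : Split k α δ P Q) (i : ι) : Q * GG P Q i = GG P Q i := by
  rw [GG, Matrix.mul_assoc, S.QQ]

lemma GG_Q (S : Split k α δ P Q) (i : ι) : GG P Q i * Q = GG P Q i := by
  rw [GG, Matrix.mul_assoc, S.Qidem]

lemma abs_trace_mul_le (A B : Matrix n n ℝ) : |trace (A * B)| ≤ fro A * fro B := by
  have h := trace_transpose_mul_sq_le Aᵀ B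
  rw [Matrix.transpose_transpose, nsq_transpose, ← fro_sq, ← fro_sq, ← mul_pow] at h
  exact abs_le_of_sq_le_sq h (mul_nonneg (fro_nonneg A) (fro_nonneg B))

lemma trace_GG_mul (S : Split k α δ P Q) (hk : 1 ≤ k) (h0 : 0 ≤ α) (hd : 0 ≤ δ) (hdα : δ ≤ α)
    (hh1 : α + δ ≤ 1) (i j : ι) :
    |trace (GG P Q i * GG P Q j) - k * α ^ 2| ≤ 4 * k ^ 2 * δ := by
  have _ := hdα
  have hkR : (1 : ℝ) ≤ k := by exact_mod_cast hk
  have hh : 0 ≤ α + δ := by linarith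
  have e1 : GG P Q i * GG P Q j = (α + δ) • GG P Q j - DD α δ P Q i * GG P Q j := by
    rw [DD, Matrix.sub_mul, Matrix.smul_mul, S.Q_GG]; abel
  rw [e1, Matrix.trace_sub, Matrix.trace_smul, smul_eq_mul, S.trace_GG]
  have h1 : |trace (DD α δ P Q i * GG P Q j)| ≤ (2 * k * δ) * k := by
    refine (abs_trace_mul_le _ _).trans ?_
    exact mul_le_mul (S.fro_DD_le hh i) (S.fro_GG_le hk hh hh1 j) (fro_nonneg _) (by positivity)
  have h2 := S.g_le j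
  have h3 := S.g_ge j
  have h4 := mul_le_mul_of_nonneg_left h2 hh
  have h5 := mul_le_mul_of_nonneg_left h3 hh
  have h6 := abs_le.mp h1
  have h7 : (α + δ) * ((α + δ) * k) ≤ k * α ^ 2 + 2 * k * δ := by nlinarith
  have h8 : k * α ^ 2 - 2 * k * δ ≤ (α + δ) * ((α - δ) * k) := by nlinarith
  have h9 : (k : ℝ) * δ ≤ k ^ 2 * δ := by nlinarith
  rw [abs_le]
  constructor <;> nlinarith

end Split

end PartB

end EIS
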