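import Mathlib
import Pool.Agent.MP932050.PartB

set_option linter.unusedSectionVars false

open Matrix Finset

namespace EIS

section Third

variable {m n ι : Type*} [Fintype m] [Fintype n] [Fintype ι] [DecidableEq ι]

lemma trace_nonneg_of_entries {A : Matrix ι ι ℝ} (h : ∀ i j, 0 ≤ A i j) : 0 ≤ trace (A * A * A) := by
  unfold Matrix.trace
  apply Finset.sum_nonneg; intro i _
  rw [Matrix.diag_apply, Matrix.mul_apply]
  apply Finset.sum_nonneg; intro j _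
  rw [Matrix.mul_apply]
  apply mul_nonneg _ (h _ _)
  apply Finset.sum_nonneg; intro l _
  exact mul_nonneg (h _ _) (h _ _)

/-- Third moment argument. -/
lemma third_moment (Z : ι → Matrix m n ℝ) (hZ : ∑ i, Z i = 0) {φ e : ℝ} (hφ : 0 ≤ φ) (he : 0 ≤ e)
    (hd : ∀ i, nsq (Z i) ≤ φ) (ho : ∀ i j, i ≠ j → trace ((Z i)ᵀ * Z j) ≤ e) :
    φ * ∑ i, ∑ j, trace ((Z i)ᵀ * Z j) ^ 2 ≤
      2 * φ ^ 3 * (Fintype.card ι : ℝ) + 3 * φ ^ 2 * (e * (Fintype.card ι : ℝ))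
        + 3 * φ * (e * (Fintype.card ι : ℝ)) ^ 2 + (e * (Fintype.card ι : ℝ)) ^ 3 := by
  have _ := hφ
  set N : ℝ := (Fintype.card ι : ℝ) with hN
  set f : Matrix ι ι ℝ := Matrix.of fun i j => trace ((Z i)ᵀ * Z j) with hf
  have hfs : fᵀ = f := by
    ext i j
    rw [Matrix.transpose_apply, hf, Matrix.of_apply, Matrix.of_apply, ← Matrix.trace_transpose,
      Matrix.transpose_mul, Matrix.transpose_transpose]
  set J : Matrix ι ι ℝ := Matrix.of fun _ _ => (1 : ℝ) with hJ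
  set B : Matrix ι ι ℝ := e • J with hB
  have hrow : ∀ i, ∑ j, f i j = 0 := by
    intro i
    simp only [hf, Matrix.of_apply]
    rw [← Matrix.trace_sum, ← Matrix.mul_sum, hZ]; simp
  have hfJ : f * J = 0 := by
    ext i j
    rw [Matrix.mul_apply]
    simp only [hJ, Matrix.of_apply, mul_one, Matrix.zero_apply]
    exact hrow i
  have hJf : J * f = 0 := by
    have : (f * J)ᵀ = J * f := by
      rw [Matrix.transpose_mul, hfs]
      congr 1
    rw [← this, hfJ, Matrix.transpose_zero]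
  have hJJ : J * J = N • J := by
    ext i j
    rw [Matrix.mul_apply, Matrix.smul_apply]
    simp [hJ, hN]
  have hfB : f * B = 0 := by rw [hB, Matrix.mul_smul, hfJ, smul_zero]
  have hBf : B * f = 0 := by rw [hB, Matrix.smul_mul, hJf, smul_zero]
  have hBB : B * B = (e * N) • B := by
    rw [hB, Matrix.smul_mul, Matrix.mul_smul, hJJ, smul_smul, smul_smul, smul_smul]
    congr 1; ring
  have htB : trace B = e * N := by
    rw [hB, Matrix.trace_smul, smul_eq_mul]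
    congr 1
    simp [Matrix.trace, hJ, hN]
  set A : Matrix ι ι ℝ := φ • (1 : Matrix ι ι ℝ) - f with hA
  have hAB : A * B = φ • B := by
    rw [hA, Matrix.sub_mul, hfB, sub_zero, Matrix.smul_mul, Matrix.one_mul]
  have hBA : B * A = φ • B := by
    rw [hA, Matrix.mul_sub, hBf, sub_zero, Matrix.mul_smul, Matrix.mul_one]
  have hpos : ∀ i j, 0 ≤ (A + B) i j := by
    intro i j
    rw [Matrix.add_apply, hA, hB, Matrix.sub_apply, Matrix.smul_apply, Matrix.smul_apply]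
    by_cases hij : i = j
    · subst hij
      have h1 := hd i
      rw [nsq_eq_trace] at h1
      simp only [hf, hJ, Matrix.of_apply, Matrix.one_apply_eq, smul_eq_mul, mul_one]
      linarith
    · have h1 := ho i j hij
      simp only [hf, hJ, Matrix.of_apply, Matrix.one_apply_ne hij, smul_eq_mul, mul_one, mul_zero]
      linarith
  have h3 := trace_nonneg_of_entries hpos
  have hexp : (A + B) * (A + B) * (A + B)
      = A * A * A + (A * (A * B) + A * (B * A) + (B * A) * A + (A * B) * B + (B * A) * B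
        + B * (B * A) + (B * B) * B) := by noncomm_ring
  have htr : trace ((A + B) * (A + B) * (A + B))
      = trace (A * A * A) + (3 * φ ^ 2 * (e * N) + 3 * φ * (e * N) ^ 2 + (e * N) ^ 3) := by
    rw [hexp, hAB, hBA, hBB]
    simp only [Matrix.mul_smul, Matrix.smul_mul, hAB, hBA, hBB, Matrix.trace_add,
      Matrix.trace_smul, htB, smul_eq_mul]
    ring
  rw [htr] at h3
  set t1 := trace f with ht1
  set t2 := trace (f * f) with ht2
  set t3 := trace (f * f * f) with ht3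
  have hA3 : trace (A * A * A) = φ ^ 3 * N - 3 * φ ^ 2 * t1 + 3 * φ * t2 - t3 := by
    have : A * A * A = (φ ^ 3) • (1 : Matrix ι ι ℝ) - (3 * φ ^ 2) • f + (3 * φ) • (f * f)
        - f * f * f := by
      rw [hA]
      simp only [Matrix.sub_mul, Matrix.mul_sub, Matrix.smul_mul, Matrix.mul_smul, Matrix.one_mul,
        Matrix.mul_one, smul_sub, smul_smul]
      module
    rw [this]
    simp only [Matrix.trace_sub, Matrix.trace_add, Matrix.trace_smul, smul_eq_mul,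
      Matrix.trace_one, ← hN, ht1, ht2, ht3]
  -- the Gram factorisation
  set W : Matrix (m × n) ι ℝ := Matrix.of fun x i => Z i x.1 x.2 with hW
  have hfW : f = Wᵀ * W := by
    ext i j
    rw [Matrix.mul_apply, hf, Matrix.of_apply, trace_transpose_mul, ← Finset.sum_product']
    rfl
  have h4 : 0 ≤ t3 - 4 * φ * t2 + 4 * φ ^ 2 * t1 := by
    set X : Matrix ι ι ℝ := f - (2 * φ) • (1 : Matrix ι ι ℝ) with hX
    have hXs : Xᵀ = X := by
      rw [hX, Matrix.transpose_sub, hfs, Matrix.transpose_smul, Matrix.transpose_one]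
    have h5 : nsq (W * X) = trace (X * f * X) := by
      rw [nsq_eq_trace, Matrix.transpose_mul, hXs, hfW]
      simp only [Matrix.mul_assoc]
    have h6 : X * f * X = f * f * f - (4 * φ) • (f * f) + (4 * φ ^ 2) • f := by
      rw [hX]
      simp only [Matrix.sub_mul, Matrix.mul_sub, Matrix.smul_mul, Matrix.mul_smul, Matrix.one_mul,
        Matrix.mul_one, smul_sub, smul_smul]
      module
    have h7 : trace (X * f * X) = t3 - 4 * φ * t2 + 4 * φ ^ 2 * t1 := by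
      rw [h6]
      simp only [Matrix.trace_sub, Matrix.trace_add, Matrix.trace_smul, smul_eq_mul, ht1, ht2, ht3]
    rw [← h7, ← h5]
    exact nsq_nonneg _
  have ht1le : t1 ≤ φ * N := by
    rw [ht1]
    unfold Matrix.trace
    calc ∑ i, f.diag i ≤ ∑ _i : ι, φ := by
          apply Finset.sum_le_sum
          intro i _
          have h1 := hd i
          rw [nsq_eq_trace] at h1
          simpa [hf] using h1
      _ = φ * N := by simp [hN]; ring
  have ht2eq : t2 = ∑ i, ∑ j, trace ((Z i)ᵀ * Z j) ^ 2 := by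
    rw [ht2]
    unfold Matrix.trace
    apply Finset.sum_congr rfl; intro i _
    rw [Matrix.diag_apply, Matrix.mul_apply]
    apply Finset.sum_congr rfl; intro j _
    have : f j i = f i j := by
      have := congrFun (congrFun hfs i) j
      simpa [Matrix.transpose_apply] using this
    rw [this, ← sq]
    rfl
  rw [← ht2eq]
  rw [hA3] at h3
  nlinarith [mul_le_mul_of_nonneg_left ht1le (sq_nonneg φ)]

end Third


section PartC

variable {n ι : Type*} [Fintype n] [Fintype ι] [DecidableEq n] [DecidableEq ι]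
variable {k : ℕ} {α δ : ℝ} {P : ι → Matrix n n ℝ} {Q : Matrix n n ℝ}

/-- `τ i j = ‖P i (1-Q) P j‖²`. -/
def tau (P : ι → Matrix n n ℝ) (Q : Matrix n n ℝ) (i j : ι) : ℝ := nsq (P i * (1 - Q) * P j)

namespace Split

lemma ZZ_trans (S : Split k α δ P Q) (i : ι) : (ZZ P Q i)ᵀ = Q * P i * (1 - Q) := by
  rw [ZZ, Matrix.transpose_mul, Matrix.transpose_mul, S.symm, S.Qsymm, S.Rsymm, Matrix.mul_assoc]

lemma FF_eq (S : Split k α δ P Q) (i j : ι) :
    (ZZ P Q i)ᵀ * ZZ P Q j = Q * P i * (1 - Q) * P j * Q := by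
  rw [S.ZZ_trans, ZZ]
  simp only [Matrix.mul_assoc]
  rw [S.RR]

lemma trace_split (S : Split k α δ P Q) (i j : ι) :
    trace (P i * P j) = trace (GG P Q i * GG P Q j) + 2 * trace ((ZZ P Q i)ᵀ * ZZ P Q j)
      + tau P Q i j := by
  have h1 : trace (GG P Q i * GG P Q j) = trace (P i * Q * P j * Q) := by
    rw [GG, GG, Matrix.mul_assoc, Matrix.mul_assoc, Matrix.trace_mul_comm]
    simp only [Matrix.mul_assoc]
    rw [S.QQ, S.Qidem]
  have h2 : trace ((ZZ P Q i)ᵀ * ZZ P Q j) = trace (P i * (1 - Q) * P j * Q) := by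
    rw [S.FF_eq]
    simp only [Matrix.mul_assoc]
    rw [Matrix.trace_mul_comm]
    simp only [Matrix.mul_assoc]
    rw [S.Qidem]
  have h2' : trace ((ZZ P Q i)ᵀ * ZZ P Q j) = trace (P i * Q * P j * (1 - Q)) := by
    have h5 : (P i * (1 - Q) * P j * Q)ᵀ = (Q * P j * (1 - Q)) * P i := by
      simp only [Matrix.transpose_mul, S.symm, S.Qsymm, S.Rsymm, Matrix.mul_assoc]
    rw [h2, ← Matrix.trace_transpose, h5, Matrix.trace_mul_comm]
    simp only [Matrix.mul_assoc]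
  have h3 : tau P Q i j = trace (P i * (1 - Q) * P j * (1 - Q)) := by
    rw [tau, nsq_eq_trace]
    simp only [Matrix.transpose_mul, S.symm, S.Rsymm, Matrix.mul_assoc]
    rw [S.PP, Matrix.trace_mul_comm]
    simp only [Matrix.mul_assoc]
    rw [S.idem, Matrix.trace_mul_comm]
    simp only [Matrix.mul_assoc]
  have h4 : P i * P j = P i * Q * P j * Q + P i * (1 - Q) * P j * Q + P i * Q * P j * (1 - Q)
      + P i * (1 - Q) * P j * (1 - Q) := by noncomm_ring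
  rw [h4, Matrix.trace_add, Matrix.trace_add, Matrix.trace_add, h1, h3, two_mul]
  nth_rewrite 1 [h2]
  rw [h2']
  ring


lemma tau_nonneg (i j : ι) : 0 ≤ tau P Q i j := nsq_nonneg _

/-- The exact relation between the blocks. -/
lemma relation (S : Split k α δ P Q) {i j : ι} (hij : i ≠ j) :
    (ZZ P Q i)ᵀ * ZZ P Q j * GG P Q i + GG P Q i * ((ZZ P Q i)ᵀ * ZZ P Q j)ᵀ
      + (P j * (1 - Q) * P i * Q)ᵀ * (P j * (1 - Q) * P i * Q)
      = (α ^ 2) • GG P Q i - GG P Q i * GG P Q j * GG P Q i := by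
  have h0 : Q * (P i * P j * P i) * Q = (α ^ 2) • GG P Q i := by
    rw [S.iso i j hij, Matrix.mul_smul, Matrix.smul_mul, GG]
  have h1 : Q * (P i * P j * P i) * Q
      = Q * P i * Q * P j * Q * P i * Q + Q * P i * (1 - Q) * P j * Q * P i * Q
        + Q * P i * Q * P j * (1 - Q) * P i * Q + Q * P i * (1 - Q) * P j * (1 - Q) * P i * Q := by
    noncomm_ring
  have e1 : (ZZ P Q i)ᵀ * ZZ P Q j * GG P Q i = Q * P i * (1 - Q) * P j * Q * P i * Q := by
    rw [S.FF_eq, GG]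
    simp only [Matrix.mul_assoc]
    rw [S.QQ]
  have e2 : GG P Q i * ((ZZ P Q i)ᵀ * ZZ P Q j)ᵀ = Q * P i * Q * P j * (1 - Q) * P i * Q := by
    rw [S.FF_eq, GG]
    simp only [Matrix.transpose_mul, S.symm, S.Qsymm, S.Rsymm, Matrix.mul_assoc]
    rw [S.QQ]
  have e3 : (P j * (1 - Q) * P i * Q)ᵀ * (P j * (1 - Q) * P i * Q)
      = Q * P i * (1 - Q) * P j * (1 - Q) * P i * Q := by
    simp only [Matrix.transpose_mul, S.symm, S.Qsymm, S.Rsymm, Matrix.mul_assoc]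
    rw [S.PP]
  have e4 : GG P Q i * GG P Q j * GG P Q i = Q * P i * Q * P j * Q * P i * Q := by
    simp only [GG, Matrix.mul_assoc]
    rw [S.QQ, S.QQ]
  rw [e1, e2, e3, e4, ← h0, h1]
  abel

lemma relation2 (S : Split k α δ P Q) {i j : ι} (hij : i ≠ j) :
    (α + δ) • ((ZZ P Q i)ᵀ * ZZ P Q j + ((ZZ P Q i)ᵀ * ZZ P Q j)ᵀ)
      = -((P j * (1 - Q) * P i * Q)ᵀ * (P j * (1 - Q) * P i * Q))
        + ((α ^ 2 - (α + δ) ^ 2) • GG P Q i
        + (α + δ) • (GG P Q i * DD α δ P Q i) + GG P Q i * DD α δ P Q j * GG P Q i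
        + (ZZ P Q i)ᵀ * ZZ P Q j * DD α δ P Q i
        + DD α δ P Q i * ((ZZ P Q i)ᵀ * ZZ P Q j)ᵀ) := by
  have h := S.relation hij
  set F := (ZZ P Q i)ᵀ * ZZ P Q j with hF
  set T := (P j * (1 - Q) * P i * Q)ᵀ * (P j * (1 - Q) * P i * Q) with hT
  have hFQ : F * Q = F := by
    rw [hF, S.FF_eq, Matrix.mul_assoc, S.Qidem]
  have hQF : Q * Fᵀ = Fᵀ := by
    have := congrArg Matrix.transpose hFQ
    rwa [Matrix.transpose_mul, S.Qsymm] at this
  have e1 : F * GG P Q i = (α + δ) • F - F * DD α δ P Q i := by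
    rw [DD, Matrix.mul_sub, Matrix.mul_smul, hFQ]; abel
  have e2 : GG P Q i * Fᵀ = (α + δ) • Fᵀ - DD α δ P Q i * Fᵀ := by
    rw [DD, Matrix.sub_mul, Matrix.smul_mul, hQF]; abel
  have e3 : GG P Q i * GG P Q j * GG P Q i
      = (α + δ) ^ 2 • GG P Q i - (α + δ) • (GG P Q i * DD α δ P Q i)
        - GG P Q i * DD α δ P Q j * GG P Q i := by
    have a1 : GG P Q i * DD α δ P Q i = (α + δ) • GG P Q i - GG P Q i * GG P Q i := by
      rw [DD, Matrix.mul_sub, Matrix.mul_smul, S.GG_Q]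
    have a2 : GG P Q i * DD α δ P Q j * GG P Q i
        = (α + δ) • (GG P Q i * GG P Q i) - GG P Q i * GG P Q j * GG P Q i := by
      rw [DD, Matrix.mul_sub, Matrix.mul_smul, S.GG_Q, Matrix.sub_mul, Matrix.smul_mul]
    rw [a1, a2]
    module
  rw [e1, e2, e3] at h
  have h2 : (α + δ) • (F + Fᵀ) = ((α + δ) • F - F * DD α δ P Q i
      + ((α + δ) • Fᵀ - DD α δ P Q i * Fᵀ) + T) + (F * DD α δ P Q i + DD α δ P Q i * Fᵀ) - T := by
    module
  rw [h2, h]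
  module


lemma nsq_mul_le' {a b c : Type*} [Fintype a] [Fintype b] [Fintype c] (A : Matrix a b ℝ)
    (B : Matrix b c ℝ) : nsq (A * B) ≤ nsq A * nsq B := by
  rw [← fro_sq, ← fro_sq, ← fro_sq, ← mul_pow]
  exact pow_le_pow_left₀ (fro_nonneg _) (fro_mul_le A B) 2

lemma fro_T_le (S : Split k α δ P Q) (i j : ι) :
    fro ((P j * (1 - Q) * P i * Q)ᵀ * (P j * (1 - Q) * P i * Q)) ≤ (α + δ) * tau P Q i j := by
  set W := P j * (1 - Q) * P i * Q with hW
  have h1 : fro (Wᵀ * W) ≤ nsq W := by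
    refine (fro_mul_le _ _).trans ?_
    rw [fro_transpose, ← sq, fro_sq]
  have h2 : nsq W = nsq (Q * (P i * ((1 - Q) * P j))) := by
    rw [← nsq_transpose, hW]
    simp only [Matrix.transpose_mul, S.symm, S.Qsymm, S.Rsymm, Matrix.mul_assoc]
  rw [h2] at h1
  refine h1.trans ((S.hiM i _).trans ?_)
  rw [tau, Matrix.mul_assoc]

lemma nsq_ZZ_le_k (S : Split k α δ P Q) (h0 : 0 ≤ α) (hd : 0 ≤ δ) (hdα : δ ≤ α)
    (hh1 : α + δ ≤ 1) (i : ι) : nsq (ZZ P Q i) ≤ k := by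
  have h1 := S.nsq_ZZ_le (by linarith) i
  refine h1.trans ?_
  have h2 : (α + δ) * (k : ℝ) ≤ 1 * k := mul_le_mul_of_nonneg_right hh1 (by positivity)
  have h3 : 0 ≤ (α + δ) * (k : ℝ) := by positivity
  nlinarith

lemma fro_FF_le (S : Split k α δ P Q) (h0 : 0 ≤ α) (hd : 0 ≤ δ) (hdα : δ ≤ α)
    (hh1 : α + δ ≤ 1) (i j : ι) : fro ((ZZ P Q i)ᵀ * ZZ P Q j) ≤ k := by
  apply fro_le_of_nsq_le (by positivity)
  refine (nsq_mul_le' _ _).trans ?_
  rw [nsq_transpose, sq]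
  exact mul_le_mul (S.nsq_ZZ_le_k h0 hd hdα hh1 i) (S.nsq_ZZ_le_k h0 hd hdα hh1 j)
    (nsq_nonneg _) (by positivity)

lemma fro_symm_le (S : Split k α δ P Q) (hk : 1 ≤ k) (h0 : 0 < α) (hd : 0 ≤ δ) (hdα : δ ≤ α)
    (hh1 : α + δ ≤ 1) {i j : ι} (hij : i ≠ j) :
    fro ((ZZ P Q i)ᵀ * ZZ P Q j + ((ZZ P Q i)ᵀ * ZZ P Q j)ᵀ)
      ≤ tau P Q i j + 10 * k ^ 3 * δ / α := by
  have hkR : (1 : ℝ) ≤ k := by exact_mod_cast hk
  have hh : 0 < α + δ := by linarith
  have hrel := S.relation2 hij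
  have hF := S.fro_FF_le h0.le hd hdα hh1 i j
  set F := (ZZ P Q i)ᵀ * ZZ P Q j with hFdef
  have hG := S.fro_GG_le hk hh.le hh1 i
  have hDi := S.fro_DD_le hh.le i
  have hDj := S.fro_DD_le hh.le j
  have hT := S.fro_T_le i j
  have hG0 := fro_nonneg (GG P Q i)
  have hD0 := fro_nonneg (DD α δ P Q i)
  have hDj0 := fro_nonneg (DD α δ P Q j)
  have hF0 := fro_nonneg F
  have hkd : 0 ≤ 2 * k * δ := by positivity
  have h1 : (α + δ) * fro (F + Fᵀ) ≤ (α + δ) * tau P Q i j + 10 * k ^ 3 * δ := by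
    have e1 : (α + δ) * fro (F + Fᵀ) = fro ((α + δ) • (F + Fᵀ)) := by
      rw [fro_smul, abs_of_pos hh]
    rw [e1, hrel]
    refine (fro_add_le _ _).trans ?_
    rw [fro_neg]
    have b1 : fro ((α ^ 2 - (α + δ) ^ 2) • GG P Q i) ≤ 2 * δ * k := by
      rw [fro_smul]
      have : |α ^ 2 - (α + δ) ^ 2| ≤ 2 * δ := by
        rw [abs_le]; constructor <;> nlinarith
      exact mul_le_mul this hG hG0 (by positivity)
    have b2 : fro ((α + δ) • (GG P Q i * DD α δ P Q i)) ≤ 2 * k ^ 2 * δ := by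
      rw [fro_smul, abs_of_pos hh]
      have : fro (GG P Q i * DD α δ P Q i) ≤ k * (2 * k * δ) :=
        (fro_mul_le _ _).trans (mul_le_mul hG hDi hD0 (by positivity))
      calc (α + δ) * fro (GG P Q i * DD α δ P Q i) ≤ 1 * (k * (2 * k * δ)) :=
            mul_le_mul hh1 this (fro_nonneg _) (by norm_num)
        _ = _ := by ring
    have b3 : fro (GG P Q i * DD α δ P Q j * GG P Q i) ≤ 2 * k ^ 3 * δ := by
      have : fro (GG P Q i * DD α δ P Q j) ≤ k * (2 * k * δ) :=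
        (fro_mul_le _ _).trans (mul_le_mul hG hDj hDj0 (by positivity))
      calc fro (GG P Q i * DD α δ P Q j * GG P Q i)
          ≤ fro (GG P Q i * DD α δ P Q j) * fro (GG P Q i) := fro_mul_le _ _
        _ ≤ (k * (2 * k * δ)) * k := mul_le_mul this hG hG0 (by positivity)
        _ = _ := by ring
    have b4 : fro (F * DD α δ P Q i) ≤ 2 * k ^ 2 * δ := by
      calc fro (F * DD α δ P Q i) ≤ fro F * fro (DD α δ P Q i) := fro_mul_le _ _
        _ ≤ k * (2 * k * δ) := mul_le_mul hF hDi hD0 (by positivity)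
        _ = _ := by ring
    have b5 : fro (DD α δ P Q i * Fᵀ) ≤ 2 * k ^ 2 * δ := by
      calc fro (DD α δ P Q i * Fᵀ) ≤ fro (DD α δ P Q i) * fro Fᵀ := fro_mul_le _ _
        _ = fro (DD α δ P Q i) * fro F := by rw [fro_transpose]
        _ ≤ (2 * k * δ) * k := mul_le_mul hDi hF hF0 hkd
        _ = _ := by ring
    have c1 := fro_add_le ((α ^ 2 - (α + δ) ^ 2) • GG P Q i
        + (α + δ) • (GG P Q i * DD α δ P Q i) + GG P Q i * DD α δ P Q j * GG P Q i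
        + F * DD α δ P Q i) (DD α δ P Q i * Fᵀ)
    have c2 := fro_add_le ((α ^ 2 - (α + δ) ^ 2) • GG P Q i
        + (α + δ) • (GG P Q i * DD α δ P Q i) + GG P Q i * DD α δ P Q j * GG P Q i)
        (F * DD α δ P Q i)
    have c3 := fro_add_le ((α ^ 2 - (α + δ) ^ 2) • GG P Q i
        + (α + δ) • (GG P Q i * DD α δ P Q i)) (GG P Q i * DD α δ P Q j * GG P Q i)
    have c4 := fro_add_le ((α ^ 2 - (α + δ) ^ 2) • GG P Q i)
        ((α + δ) • (GG P Q i * DD α δ P Q i))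
    have hk1 : (k : ℝ) * δ ≤ k ^ 3 * δ := by
      apply mul_le_mul_of_nonneg_right _ hd
      nlinarith [sq_nonneg ((k:ℝ) - 1), sq_nonneg (k : ℝ)]
    have hk2 : (k : ℝ) ^ 2 * δ ≤ k ^ 3 * δ := by
      apply mul_le_mul_of_nonneg_right _ hd
      nlinarith [sq_nonneg (k : ℝ)]
    linarith
  have h2 : (α + δ) * (10 * k ^ 3 * δ / (α + δ)) = 10 * k ^ 3 * δ := by field_simp
  have h3 : (α + δ) * fro (F + Fᵀ) ≤ (α + δ) * (tau P Q i j + 10 * k ^ 3 * δ / (α + δ)) := by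
    rw [mul_add, h2]; exact h1
  have h4 := le_of_mul_le_mul_left h3 hh
  refine h4.trans ?_
  have : 10 * (k : ℝ) ^ 3 * δ / (α + δ) ≤ 10 * k ^ 3 * δ / α :=
    div_le_div_of_nonneg_left (by positivity) h0 (by linarith)
  linarith

lemma off_diag (S : Split k α δ P Q) (hk : 1 ≤ k) (h0 : 0 < α) (hd : 0 ≤ δ) (hdα : δ ≤ α)
    (hh1 : α + δ ≤ 1) {i j : ι} (hij : i ≠ j) :
    trace ((ZZ P Q i)ᵀ * ZZ P Q j) ≤ 2 * k ^ 2 * δ ∧
    nsq ((ZZ P Q i)ᵀ * ZZ P Q j + ((ZZ P Q i)ᵀ * ZZ P Q j)ᵀ) / 2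
      ≤ 8 * trace ((ZZ P Q i)ᵀ * ZZ P Q j) ^ 2 + 132 * k ^ 6 / α ^ 2 * δ ^ 2 := by
  have hkR : (1 : ℝ) ≤ k := by exact_mod_cast hk
  have h1 := S.trace_split i j
  have htr : trace (P i * P j) = k * α ^ 2 := by
    have h := congrArg trace (S.iso i j hij)
    rw [Matrix.trace_smul, S.tr i, Matrix.mul_assoc, Matrix.trace_mul_comm, Matrix.mul_assoc,
      S.idem i, Matrix.trace_mul_comm] at h
    rw [h, smul_eq_mul]; ring
  rw [htr] at h1
  have h2 := abs_le.mp (S.trace_GG_mul hk h0.le hd hdα hh1 i j)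
  have h3 := tau_nonneg (P := P) (Q := Q) i j
  have h4 := S.fro_symm_le hk h0 hd hdα hh1 hij
  set f := trace ((ZZ P Q i)ᵀ * ZZ P Q j) with hf
  set F := (ZZ P Q i)ᵀ * ZZ P Q j with hF
  set τ := tau P Q i j with hτ
  set ρ := 10 * (k : ℝ) ^ 3 * δ / α with hρ
  refine ⟨by linarith, ?_⟩
  have h5 : nsq (F + Fᵀ) ≤ (τ + ρ) ^ 2 := nsq_le_of_fro_le h4
  have h6 : nsq (F + Fᵀ) / 2 ≤ τ ^ 2 + ρ ^ 2 := by nlinarith [sq_nonneg (τ - ρ)]
  have hτ2 : τ ^ 2 ≤ 32 * k ^ 4 * δ ^ 2 + 8 * f ^ 2 := by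
    set g := trace (GG P Q i * GG P Q j) with hg
    have e1 : τ = (k * α ^ 2 - g) - 2 * f := by linarith
    have e2 : (k * α ^ 2 - g) ^ 2 ≤ (4 * k ^ 2 * δ) ^ 2 := by
      apply sq_le_sq'
      · linarith [h2.2]
      · linarith [h2.1]
    rw [e1]
    nlinarith [sq_nonneg ((k * α ^ 2 - g) + 2 * f)]
  have hρ2 : ρ ^ 2 = 100 * k ^ 6 / α ^ 2 * δ ^ 2 := by
    rw [hρ]; ring
  have hk4 : 32 * (k : ℝ) ^ 4 * δ ^ 2 ≤ 32 * k ^ 6 / α ^ 2 * δ ^ 2 := by
    apply mul_le_mul_of_nonneg_right _ (sq_nonneg δ)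
    rw [le_div_iff₀ (by positivity)]
    have a1 : α ^ 2 ≤ 1 := by nlinarith
    have a2 : (k : ℝ) ^ 4 ≤ k ^ 6 := pow_le_pow_right₀ hkR (by norm_num)
    have a3 : 0 ≤ (k : ℝ) ^ 4 := by positivity
    nlinarith
  have e : 132 * (k : ℝ) ^ 6 / α ^ 2 * δ ^ 2
      = 32 * k ^ 6 / α ^ 2 * δ ^ 2 + 100 * k ^ 6 / α ^ 2 * δ ^ 2 := by ring
  rw [e]
  linarith

lemma diag_bound (S : Split k α δ P Q) (i : ι) :
    nsq ((ZZ P Q i)ᵀ * ZZ P Q i + ((ZZ P Q i)ᵀ * ZZ P Q i)ᵀ) / 2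
      ≤ 8 * trace ((ZZ P Q i)ᵀ * ZZ P Q i) ^ 2 := by
  have _ := S
  have e1 : ((ZZ P Q i)ᵀ * ZZ P Q i)ᵀ = (ZZ P Q i)ᵀ * ZZ P Q i := by
    rw [Matrix.transpose_mul, Matrix.transpose_transpose]
  have e2 : (ZZ P Q i)ᵀ * ZZ P Q i + (ZZ P Q i)ᵀ * ZZ P Q i
      = (2 : ℝ) • ((ZZ P Q i)ᵀ * ZZ P Q i) := by rw [two_smul]
  rw [e1, e2, nsq_smul, ← nsq_eq_trace]
  have h1 := nsq_mul_le' (ZZ P Q i)ᵀ (ZZ P Q i)
  rw [nsq_transpose] at h1
  nlinarith [nsq_nonneg (ZZ P Q i)]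

lemma sum_FF (S : Split k α δ P Q) (hk : 1 ≤ k) (h0 : 0 < α) (hd : 0 ≤ δ) (hdα : δ ≤ α)
    (hh1 : α + δ ≤ 1) :
    ∑ i, ∑ j, nsq ((ZZ P Q i)ᵀ * ZZ P Q j) ≤
      9 * ∑ i, ∑ j, trace ((ZZ P Q i)ᵀ * ZZ P Q j) ^ 2
      + 132 * k ^ 6 / α ^ 2 * (δ * (Fintype.card ι : ℝ)) ^ 2 := by
  refine (gram_bound _).trans ?_
  have h1 : ∀ i j, nsq ((ZZ P Q i)ᵀ * ZZ P Q j + ((ZZ P Q i)ᵀ * ZZ P Q j)ᵀ) / 2
      + trace ((ZZ P Q i)ᵀ * ZZ P Q j) ^ 2
      ≤ 9 * trace ((ZZ P Q i)ᵀ * ZZ P Q j) ^ 2 + 132 * k ^ 6 / α ^ 2 * δ ^ 2 := by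
    intro i j
    by_cases hij : i = j
    · subst hij
      have := S.diag_bound i
      have h2 : 0 ≤ 132 * (k : ℝ) ^ 6 / α ^ 2 * δ ^ 2 := by positivity
      linarith
    · have := (S.off_diag hk h0 hd hdα hh1 hij).2
      linarith
  refine (Finset.sum_le_sum fun i _ => Finset.sum_le_sum fun j _ => h1 i j).trans ?_
  simp_rw [Finset.sum_add_distrib, ← Finset.mul_sum]
  simp only [Finset.sum_const, Finset.card_univ, nsmul_eq_mul]
  apply le_of_eq
  ring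

lemma sum_ZZ (S : Split k α δ P Q) : ∑ i, ZZ P Q i = 0 := by
  unfold ZZ
  rw [← Finset.sum_mul, ← Finset.mul_sum]
  exact S.comm

/-- The final inequality of the second part. -/
lemma final (S : Split k α δ P Q) (hk : 1 ≤ k) (h0 : 0 < α) (h1 : α < 1) (hd : 0 ≤ δ)
    (hds : δ ≤ α * (1 - α) / 8) (hN : 0 < (Fintype.card ι : ℝ))
    (hdN : (Fintype.card n : ℝ) ≤ (Fintype.card ι : ℝ)) {η : ℝ} (hη : δ * (Fintype.card ι : ℝ) = η) :
    (Fintype.card ι : ℝ) ≤ 36 * (Fintype.card n : ℝ)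
      + (9 * (3 * k ^ 2 * (2 * k ^ 2 * η) + 3 * k * (2 * k ^ 2 * η) ^ 2 + (2 * k ^ 2 * η) ^ 3)
          / (α * (1 - α) / 2) + 132 * k ^ 6 / α ^ 2 * η ^ 2) / (α * (1 - α) / 2) ^ 2 := by
  have hkR : (1 : ℝ) ≤ k := by exact_mod_cast hk
  set N : ℝ := (Fintype.card ι : ℝ) with hNdef
  set d : ℝ := (Fintype.card n : ℝ) with hddef
  have hd0 : 0 ≤ d := by rw [hddef]; positivity
  have hη0 : 0 ≤ η := by rw [← hη]; positivity
  have hα1 : 0 < 1 - α := by linarith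
  have hαα : α * (1 - α) ≤ 1 / 4 := by nlinarith [sq_nonneg (α - 1 / 2)]
  have hprod : 0 < α * (1 - α) := mul_pos h0 hα1
  have hδα : δ ≤ α := by nlinarith
  have hh1 : α + δ ≤ 1 := by nlinarith
  have hδ8 : δ ≤ 1 / 8 := by linarith
  set φ : ℝ := (1 - (α - δ)) * ((α + δ) * k) with hφ
  set φl : ℝ := (1 - (α + δ)) * ((α - δ) * k) with hφl
  set φ0 : ℝ := α * (1 - α) / 2 with hφ0
  have hφ0pos : 0 < φ0 := by positivity
  set s : ℝ := α * (1 - α) with hs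
  have e1 : φ = (s + δ + δ ^ 2) * k := by rw [hφ, hs]; ring
  have e2 : φl = (s - δ + δ ^ 2) * k := by rw [hφl, hs]; ring
  have hφl_ge : 7 / 8 * s * k ≤ φl := by
    rw [e2]; apply mul_le_mul_of_nonneg_right _ (by positivity)
    nlinarith [sq_nonneg δ]
  have hφ_le : φ ≤ 73 / 64 * s * k := by
    rw [e1]; apply mul_le_mul_of_nonneg_right _ (by positivity)
    nlinarith
  have hφ0l : φ0 ≤ φl := by
    refine le_trans ?_ hφl_ge
    rw [hφ0]; nlinarith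
  have hφlφ : φl ≤ φ := by
    rw [e1, e2]; apply mul_le_mul_of_nonneg_right _ (by positivity); linarith
  have hφpos : 0 < φ := by linarith
  have hφlpos : 0 < φl := by linarith
  have hφk : φ ≤ k := by
    refine hφ_le.trans ?_
    nlinarith
  have hratio : φ ^ 2 ≤ 2 * φl ^ 2 := by
    have a1 : φ ^ 2 ≤ (73 / 64 * s * k) ^ 2 := pow_le_pow_left₀ hφpos.le hφ_le 2
    have a2 : (7 / 8 * s * k) ^ 2 ≤ φl ^ 2 := pow_le_pow_left₀ (by positivity) hφl_ge 2
    have a3 : (73 / 64 * s * k) ^ 2 ≤ 2 * (7 / 8 * s * k) ^ 2 := by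
      have : 0 ≤ (s * k) ^ 2 := sq_nonneg _
      nlinarith
    linarith
  set κ : ℝ := 2 * k ^ 2 * η with hκ
  have hκ0 : 0 ≤ κ := by positivity
  set F2 : ℝ := ∑ i, ∑ j, trace ((ZZ P Q i)ᵀ * ZZ P Q j) ^ 2 with hF2
  have t1 := third_moment (fun i => ZZ P Q i) S.sum_ZZ (φ := φ) (e := 2 * k ^ 2 * δ) hφpos.le
    (by positivity) (fun i => S.nsq_ZZ_le (by linarith) i)
    (fun i j hij => (S.off_diag hk h0 hd hδα hh1 hij).1)
  have eκ : 2 * (k : ℝ) ^ 2 * δ * N = κ := by rw [hκ, ← hη]; ring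
  rw [← hNdef, eκ] at t1
  change φ * F2 ≤ _ at t1
  set K6 : ℝ := 3 * k ^ 2 * κ + 3 * k * κ ^ 2 + κ ^ 3 with hK6
  have t2 : φ * F2 ≤ φ * (2 * φ ^ 2 * N + K6 / φ0) := by
    have b1 : 3 * φ ^ 2 * κ ≤ 3 * k ^ 2 * κ := by
      apply mul_le_mul_of_nonneg_right _ hκ0
      have := pow_le_pow_left₀ hφpos.le hφk 2
      linarith
    have b2 : 3 * φ * κ ^ 2 ≤ 3 * k * κ ^ 2 := by
      apply mul_le_mul_of_nonneg_right _ (sq_nonneg κ)
      linarith
    have b3 : K6 ≤ φ * (K6 / φ0) := by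
      have hK60 : 0 ≤ K6 := by positivity
      rw [← mul_div_assoc, le_div_iff₀ hφ0pos]
      have : φ0 ≤ φ := by linarith
      nlinarith
    have b4 : φ * (2 * φ ^ 2 * N + K6 / φ0) = 2 * φ ^ 3 * N + φ * (K6 / φ0) := by ring
    rw [b4]
    linarith
  have t3 : F2 ≤ 2 * φ ^ 2 * N + K6 / φ0 := le_of_mul_le_mul_left t2 hφpos
  have t4 := S.sum_FF hk h0 hd hδα hh1
  rw [← hNdef, hη] at t4
  have t5 := rank_bound (fun i => ZZ P Q i)
  have t6 : N * φl ≤ ∑ i, nsq (ZZ P Q i) := by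
    rw [hNdef, ← Finset.card_univ, ← nsmul_eq_mul]
    apply Finset.card_nsmul_le_sum
    intro i _
    exact S.nsq_ZZ_ge (by linarith) i
  have t7 : (N * φl) ^ 2 ≤ (∑ i, nsq (ZZ P Q i)) ^ 2 :=
    pow_le_pow_left₀ (by positivity) t6 2
  set K10 : ℝ := 9 * K6 / φ0 + 132 * k ^ 6 / α ^ 2 * η ^ 2 with hK10
  have t8 : (N * φl) ^ 2 ≤ d * (36 * φl ^ 2 * N + K10) := by
    refine t7.trans (t5.trans ?_)
    apply mul_le_mul_of_nonneg_left _ hd0
    refine t4.trans ?_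
    have c1 : 18 * φ ^ 2 * N ≤ 36 * φl ^ 2 * N := by
      apply mul_le_mul_of_nonneg_right _ hN.le; linarith
    have c2 : 9 * F2 ≤ 18 * φ ^ 2 * N + 9 * K6 / φ0 := by
      have : 9 * K6 / φ0 = 9 * (K6 / φ0) := by ring
      rw [this]; linarith
    rw [hK10]
    linarith
  have hK100 : 0 ≤ K10 := by
    have : 0 ≤ K6 := by positivity
    positivity
  have t9 : N * (N * φl ^ 2) ≤ N * (36 * φl ^ 2 * d + K10) := by
    have : d * K10 ≤ N * K10 := mul_le_mul_of_nonneg_right hdN hK100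
    nlinarith
  have t10 := le_of_mul_le_mul_left t9 hN
  have t11 : N ≤ 36 * d + K10 / φl ^ 2 := by
    have : N * φl ^ 2 ≤ (36 * d + K10 / φl ^ 2) * φl ^ 2 := by
      have e : (36 * d + K10 / φl ^ 2) * φl ^ 2 = 36 * φl ^ 2 * d + K10 := by
        field_simp
      rw [e]; exact t10
    exact le_of_mul_le_mul_right this (by positivity)
  refine t11.trans ?_
  have : K10 / φl ^ 2 ≤ K10 / φ0 ^ 2 := by
    apply div_le_div_of_nonneg_left hK100 (by positivity)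
    exact pow_le_pow_left₀ hφ0pos.le hφ0l 2
  linarith

end Split

end PartC

end EIS
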