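import Mathlib
import Pool.Agent.MP932050.PartC

set_option linter.unusedSectionVars false

open Matrix Finset

namespace EIS

section Combine

variable {n ι : Type*} [Fintype n] [Fintype ι] [DecidableEq n] [DecidableEq ι]
variable {k : ℕ} {α : ℝ} {P : ι → Matrix n n ℝ} {lam : n → ℝ}

/-- Coordinate projection onto the coordinates in `L`. -/
def coordProj (L : Finset n) : Matrix n n ℝ := diagonal (fun a => if a ∈ L then 1 else 0)

lemma coordProj_mulVec (L : Finset n) (v : n → ℝ) (a : n) :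
    (coordProj L *ᵥ v) a = if a ∈ L then v a else 0 := by
  rw [coordProj, Matrix.mulVec_diagonal]
  split_ifs <;> simp

lemma coordProj_dot (L : Finset n) (v : n → ℝ) :
    (coordProj L *ᵥ v) ⬝ᵥ (coordProj L *ᵥ v) = ∑ a ∈ L, v a ^ 2 := by
  unfold dotProduct
  simp_rw [coordProj_mulVec]
  rw [← Finset.sum_filter_add_sum_filter_not Finset.univ (fun a => a ∈ L)]
  have h1 : ∑ a ∈ Finset.univ.filter (fun a => ¬ a ∈ L),
      (if a ∈ L then v a else 0) * (if a ∈ L then v a else 0) = 0 := by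
    apply Finset.sum_eq_zero
    intro a ha
    simp [(Finset.mem_filter.mp ha).2]
  rw [h1, add_zero]
  have h2 : Finset.univ.filter (fun a => a ∈ L) = L := by ext a; simp
  rw [h2]
  apply Finset.sum_congr rfl
  intro a ha
  simp [ha, sq]

lemma Hyp.toSplit (H : Hyp k α P lam) {δ : ℝ} (L : Finset n) (hL : L.card ≤ k)
    (h : ∀ (i : ι) (v : n → ℝ),
      (α - δ) * ∑ a, (P i *ᵥ v) a ^ 2 ≤ ∑ a ∈ L, (P i *ᵥ v) a ^ 2 ∧
      ∑ a ∈ L, (P i *ᵥ v) a ^ 2 ≤ (α + δ) * ∑ a, (P i *ᵥ v) a ^ 2) :
    Split k α δ P (coordProj L) := by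
  have hdot : ∀ w : n → ℝ, w ⬝ᵥ w = ∑ a, w a ^ 2 := by
    intro w; unfold dotProduct; simp only [sq]
  have hid : coordProj L * coordProj L = coordProj L := by
    rw [coordProj, Matrix.diagonal_mul_diagonal]
    congr 1
    ext a; split_ifs <;> simp
  refine ⟨H.symm, H.idem, H.tr, H.iso, ?_, hid, ?_, ?_, ?_, ?_⟩
  · rw [coordProj, Matrix.diagonal_transpose]
  · rw [coordProj, Matrix.trace_diagonal]
    simp only [Finset.sum_ite_mem, Finset.univ_inter, Finset.sum_const, nsmul_eq_mul, mul_one]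
    exact_mod_cast hL
  · intro i v
    rw [coordProj_dot, hdot]
    exact (h i v).2
  · intro i v
    rw [coordProj_dot, hdot]
    exact (h i v).1
  · rw [H.diag]
    have : (1 - coordProj L) * diagonal lam = diagonal lam * (1 - coordProj L) := by
      have e : (1 : Matrix n n ℝ) - coordProj L = diagonal (fun a => 1 - if a ∈ L then 1 else 0) := by
        rw [coordProj, ← Matrix.diagonal_one, Matrix.diagonal_sub]
      rw [e, Matrix.diagonal_mul_diagonal, Matrix.diagonal_mul_diagonal]
      congr 1; ext a; ring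
    rw [this, Matrix.mul_assoc, Matrix.sub_mul, hid, Matrix.one_mul, sub_self, Matrix.mul_zero]

end Combine

/-- The bound for matrices, `0 < α < 1`. -/
theorem matrix_main (k : ℕ) (hk : 1 ≤ k) (α : ℝ) (h0 : 0 < α) (h1 : α < 1) :
    ∃ K : ℝ, ∀ (n ι : Type) [Fintype n] [Fintype ι] [DecidableEq n] [DecidableEq ι]
      (P : ι → Matrix n n ℝ) (lam : n → ℝ), Hyp k α P lam →
      (Fintype.card ι : ℝ) ≤ 36 * (Fintype.card n : ℝ) + K := by
  have hα1 : 0 < 1 - α := by linarith
  have hprod : 0 < α * (1 - α) := mul_pos h0 hα1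
  set η : ℝ := 6 * k ^ 2 / α ^ 3 with hη
  have hη0 : 0 ≤ η := by positivity
  set K1 : ℝ := (9 * (3 * k ^ 2 * (2 * k ^ 2 * η) + 3 * k * (2 * k ^ 2 * η) ^ 2
      + (2 * k ^ 2 * η) ^ 3) / (α * (1 - α) / 2) + 132 * k ^ 6 / α ^ 2 * η ^ 2)
      / (α * (1 - α) / 2) ^ 2 with hK1
  have hK10 : 0 ≤ K1 := by positivity
  set N1 : ℝ := 4 * (k + 1) * k ^ 2 / α ^ 3 with hN1
  have hN10 : 0 ≤ N1 := by positivity
  set N2 : ℝ := 8 * η / (α * (1 - α)) with hN2
  have hN20 : 0 ≤ N2 := by positivity
  refine ⟨K1 + N1 + N2, ?_⟩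
  intro n ι _ _ _ _ P lam H
  have hd0 : 0 ≤ (Fintype.card n : ℝ) := by positivity
  by_cases hA : (Fintype.card ι : ℝ) ≤ N1
  · linarith
  by_cases hB : (Fintype.card ι : ℝ) < N2
  · linarith
  by_cases hC : (Fintype.card ι : ℝ) < (Fintype.card n : ℝ)
  · linarith
  push Not at hA hB hC
  have hN0 : 0 < (Fintype.card ι : ℝ) := lt_of_le_of_lt hN10 hA
  obtain ⟨L, hL, hLs⟩ := H.partA hk h0 h1 hA
  have S := H.toSplit L hL hLs
  have h2 := S.final hk h0 h1 (by positivity) (by
    rw [div_le_iff₀ hN0]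
    rw [hN2, div_le_iff₀ hprod] at hB
    linarith) hN0 hC (η := η) (by rw [hη]; field_simp)
  rw [← hK1] at h2
  linarith

/-- The bound for matrices, `α = 0`. -/
theorem matrix_zero (k : ℕ) (hk : 1 ≤ k) (n ι : Type) [Fintype n] [Fintype ι] [DecidableEq n]
    [DecidableEq ι] (P : ι → Matrix n n ℝ) (lam : n → ℝ) (H : Hyp k 0 P lam) :
    (Fintype.card ι : ℝ) ≤ (Fintype.card n : ℝ) := by
  have hkR : (1 : ℝ) ≤ k := by exact_mod_cast hk
  have h1 := H.sum_lam
  have h2 := H.sum_lam_sq
  have h3 := sq_sum_le_card_mul_sum_sq (s := (Finset.univ : Finset n)) (f := lam)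
  rw [h1, h2] at h3
  simp only [Finset.card_univ] at h3
  have hι : 0 ≤ (Fintype.card ι : ℝ) := by positivity
  have hn : 0 ≤ (Fintype.card n : ℝ) := by positivity
  rcases hι.eq_or_lt with h0 | h0
  · rw [← h0]; exact hn
  · have h4 : (k * (Fintype.card ι : ℝ)) * (k * (Fintype.card ι : ℝ))
        ≤ (k * (Fintype.card ι : ℝ)) * (Fintype.card n : ℝ) := by nlinarith
    have h5 := le_of_mul_le_mul_left h4 (by positivity)
    nlinarith


section Bridge

open Module

variable {k d : ℕ} {α : ℝ}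

/-- From a finite equi-isoclinic family of subspaces to matrices. -/
theorem exists_hyp (s : Finset (Submodule ℝ (EuclideanSpace ℝ (Fin d))))
    (hk : ∀ U ∈ s, Module.finrank ℝ U = k)
    (hiso : ∀ U ∈ s, ∀ V ∈ s, U ≠ V → ∀ u ∈ U, ‖u‖ = 1 → ‖V.starProjection u‖ = α) :
    ∃ (P : s → Matrix (Fin d) (Fin d) ℝ) (lam : Fin d → ℝ), Hyp k α P lam := by
  classical
  set E := EuclideanSpace ℝ (Fin d)
  let T : s → (E →ₗ[ℝ] E) := fun U => (U.1.starProjection : E →L[ℝ] E)
  have hTapp : ∀ U x, T U x = U.1.starProjection x := fun U x => rfl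
  have hTsymm : ∀ U, (T U).IsSymmetric := fun U => U.1.starProjection_isSymmetric
  have hTidem : ∀ U, T U * T U = T U := by
    intro U
    ext1 x
    change T U (T U x) = T U x
    rw [hTapp, hTapp]
    exact (Submodule.starProjection_eq_self_iff).mpr (Submodule.starProjection_apply_mem _ _)
  have hTtr : ∀ U, LinearMap.trace ℝ E (T U) = k := by
    intro U
    have hp : LinearMap.IsProj U.1 (T U) :=
      ⟨fun x => Submodule.starProjection_apply_mem _ _,
        fun x hx => (Submodule.starProjection_eq_self_iff).mpr hx⟩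
    rw [hp.trace, hk U.1 U.2]
  have hnorm : ∀ U V : s, U ≠ V → ∀ x : E, ‖T V (T U x)‖ ^ 2 = α ^ 2 * ‖T U x‖ ^ 2 := by
    intro U V hUV x
    have hne : U.1 ≠ V.1 := fun h => hUV (Subtype.ext h)
    set u := T U x with hu
    have huU : u ∈ U.1 := Submodule.starProjection_apply_mem _ _
    by_cases h0 : u = 0
    · rw [h0]; simp
    · have hun : ‖u‖ ≠ 0 := norm_ne_zero_iff.mpr h0
      have h1 := hiso U.1 U.2 V.1 V.2 hne ((‖u‖)⁻¹ • u) (Submodule.smul_mem _ _ huU) (by
        rw [norm_smul, norm_inv, norm_norm]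
        exact inv_mul_cancel₀ hun)
      rw [map_smul, norm_smul, norm_inv, norm_norm] at h1
      have h2 : ‖T V u‖ = α * ‖u‖ := by
        rw [hTapp]
        field_simp at h1
        linarith
      rw [h2]; ring
  have hTiso : ∀ U V : s, U ≠ V → T U * T V * T U = (α ^ 2) • T U := by
    intro U V hUV
    rw [← sub_eq_zero]
    have hsym : (T U * T V * T U - (α ^ 2) • T U).IsSymmetric := by
      intro x y
      simp only [LinearMap.sub_apply, LinearMap.smul_apply, Module.End.mul_apply, inner_sub_left,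
        inner_sub_right, inner_smul_left, inner_smul_right]
      rw [hTsymm U (T V (T U x)) y, hTsymm V (T U x) (T U y), hTsymm U x (T V (T U y)),
        hTsymm U x y]
      simp
    rw [← hsym.inner_map_self_eq_zero]
    intro x
    simp only [LinearMap.sub_apply, LinearMap.smul_apply, Module.End.mul_apply, inner_sub_left,
      inner_smul_left]
    have h1 := hnorm U V hUV x
    have e1 : inner ℝ (T U (T V (T U x))) x = ‖T V (T U x)‖ ^ 2 := by
      rw [hTsymm U, ← real_inner_self_eq_norm_sq]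
      conv_rhs => rw [hTsymm V]
      have := LinearMap.congr_fun (hTidem V) (T U x)
      rw [Module.End.mul_apply] at this
      rw [this, hTsymm V]
    have e2 : inner ℝ (T U x) x = ‖T U x‖ ^ 2 := by
      rw [← real_inner_self_eq_norm_sq]
      conv_rhs => rw [hTsymm U]
      have := LinearMap.congr_fun (hTidem U) x
      rw [Module.End.mul_apply] at this
      rw [this, hTsymm U]
    rw [e1, e2, h1]
    simp
  set S : E →ₗ[ℝ] E := ∑ U, T U with hS
  have hSsymm : S.IsSymmetric := by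
    intro x y
    rw [hS]
    simp only [LinearMap.sum_apply, sum_inner, inner_sum]
    exact Finset.sum_congr rfl fun U _ => hTsymm U x y
  have hfr : Module.finrank ℝ E = d := by simp [E]
  set b : OrthonormalBasis (Fin d) ℝ E := hSsymm.eigenvectorBasis hfr with hb
  let Φ := LinearMap.toMatrixOrthonormal (𝕜 := ℝ) b
  refine ⟨fun U => Φ (T U), fun a => hSsymm.eigenvalues hfr a, ?_, ?_, ?_, ?_, ?_⟩
  · intro U
    ext a c
    rw [Matrix.transpose_apply, LinearMap.toMatrixOrthonormal_apply_apply,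
      LinearMap.toMatrixOrthonormal_apply_apply, ← hTsymm U, real_inner_comm]
  · intro U
    rw [← map_mul, hTidem]
  · intro U
    rw [← hTtr U, LinearMap.trace_eq_matrix_trace ℝ b.toBasis]
    rfl
  · intro U V hUV
    rw [← map_mul, ← map_mul, hTiso U V hUV, map_smul]
  · rw [← map_sum]
    ext a c
    rw [LinearMap.toMatrixOrthonormal_apply_apply, ← hS, hb, hSsymm.apply_eigenvectorBasis hfr c]
    rw [inner_smul_right, OrthonormalBasis.inner_eq_ite, Matrix.diagonal_apply]
    by_cases hac : a = c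
    · subst hac; simp
    · simp [hac]

end Bridge

end EIS
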